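import Pool.Agent.MP_c71a08_an.H15.Track

/-! Every relevant edge is checked before time `q`. -/

set_option linter.unusedSectionVars false

namespace Pool.Agent.MP_c71a08_an.H15

open Finset Function

theorem norm_pow_sub {a b : ℂ} (ha : ‖a‖ = 1) (hb : ‖b‖ = 1) (N : ℕ) :
    ‖a ^ N - b ^ N‖ ≤ N * ‖a - b‖ := by
  induction N with
  | zero => simp
  | succ N ih =>
    have e : a ^ (N + 1) - b ^ (N + 1) = (a ^ N - b ^ N) * a + b ^ N * (a - b) := by ring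
    have h := norm_add_le ((a ^ N - b ^ N) * a) (b ^ N * (a - b))
    rw [← e, norm_mul, norm_mul, norm_pow, ha, hb] at h
    push_cast
    simp only [one_pow, mul_one, one_mul] at h
    linarith

theorem time1 {n q b e f s : ℕ} (hq : q + n = n * n + 1) (hef : e + f = n) (hb : b ≤ e)
    (hbn : b < n) (hs : s < n * b) : s + 1 + f ≤ q := by
  obtain ⟨c, rfl⟩ := Nat.exists_eq_add_of_lt hbn
  nlinarith

theorem time2 {n q b e f s k : ℕ} (hq : q + n = n * n + 1) (hef : e + f = n) (hb : b + 1 ≤ e)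
    (hn : 2 ≤ n) (hs : s < n * b) (hk : k ≤ f + 1) : s + k + f ≤ q := by
  obtain ⟨c, rfl⟩ := Nat.exists_eq_add_of_le hb
  obtain ⟨m, rfl⟩ := Nat.exists_eq_add_of_le hn
  nlinarith

theorem time3 {n q b b' e f s k u : ℕ} (hq : q + n = n * n + 1) (hef : e + f = n)
    (hb : b + b' ≤ e) (hb0 : 0 < b) (hs : s < n * b) (hk : k ≤ f + 1) (hu : u < b') :
    s + u * b + k + f ≤ q := by
  obtain ⟨c, rfl⟩ := Nat.exists_eq_add_of_le hb
  obtain ⟨d, rfl⟩ := Nat.exists_eq_add_of_lt hu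
  obtain ⟨b0, rfl⟩ := Nat.exists_eq_add_of_lt hb0
  subst hef
  nlinarith [Nat.zero_le (u * u), Nat.zero_le (c * c), Nat.zero_le (d * d), Nat.zero_le (f * f),
    Nat.zero_le (b0 * f), Nat.zero_le (u * f), Nat.zero_le (b0 * d), Nat.zero_le (b0 * c),
    Nat.zero_le (u * d), Nat.zero_le (u * c), Nat.zero_le (c * d), Nat.zero_le (c * f),
    Nat.zero_le (d * f)]

theorem time4 {n q b b' s k : ℕ} (hq : q + n = n * n + 1) (hb : b + b' ≤ n) (hs : s < n)
    (hk : k < n) : s + b * b' + k ≤ q := by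
  have h1 : 4 * (b * b') ≤ n * n := by
    have : (b + b') * (b + b') ≤ n * n := Nat.mul_le_mul hb hb
    zify at *
    nlinarith [sq_nonneg ((b : ℤ) - b')]
  zify at *
  nlinarith [sq_nonneg ((n : ℤ) - 2)]

variable {V : Type} [Fintype V] [DecidableEq V]

namespace Ctx

variable (C : Ctx V) {K : Set V}

theorem full_E {v : V} (hv : v ∈ C.E) (hb : C.b v = Fintype.card V) (u : V) :
    u ∈ C.E ∧ C.b u = Fintype.card V := by
  obtain ⟨t, rfl⟩ := C.full_cycle hb u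
  exact ⟨C.E_iter hv t, by rw [C.b_iter hv, hb]⟩

theorem hasDef (hK : C.IsK C.δ C.i K) {β : V} (hβ : β ∈ K) : C.HasDef β := by
  have hE := hK.mem_E hβ
  have hq := qq_add V
  have hbn : C.b β ≤ Fintype.card V := (C.b_le hE).trans C.ce_le
  rcases hbn.lt_or_eq with hlt | heq
  · obtain ⟨s, hs, hW⟩ := hK.reach_good C.hδ.le C.hδ1 (s0 := 0) hE (by rwa [C.Lab_zero hE])
    obtain ⟨s', h1, h2, h3⟩ := Dat.W0.shorten (C.b_pos hE) s hW
    refine ⟨(β, s'), hE, ?_, ?_, h3⟩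
    · have := time1 hq C.ce_add_cf (C.b_le hE) hlt h1
      show s' ≤ _
      omega
    · show C.Lab β s' = β
      rw [C.Lab_congr β (g := C.b β) (s' := 0) (by rw [C.Lab_zero hE])
        (h2.trans (hs.of_dvd (C.b_dvd hE))), C.Lab_zero hE]
  · by_cases hch : ∃ j l, C.δ ≤ C.pt j l ∧ l ≠ C.h j
    · obtain ⟨j, l, h1, h2⟩ := hch
      obtain ⟨t, ht⟩ := C.full_cycle heq j
      have hL : C.Lab j t = β := by
        have := C.Lab_iter β 0 t
        rwa [ht, zero_add, C.Lab_zero hE] at this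
      obtain ⟨s', q1, q2, q3⟩ := hK.special C.hδ.le C.hδ1 hE heq h2 h1 (s0 := t) (by rwa [hL])
      refine ⟨(j, s'), (C.full_E hE heq j).1, ?_, ?_, q3⟩
      · show s' ≤ _
        omega
      · show C.Lab j s' = β
        rw [C.Lab_congr j (by rw [(C.full_E hE heq _).2]) q1, hL]
    · push Not at hch
      have := Dat.no_chord hch (C.Lab_mem C.i 0) (hK.reach β hβ)
      exact ⟨(C.i, 0), (C.full_E hE heq _).1, Nat.zero_le _, this.symm,
        Dat.W0.mono ⟨1, Dat.W.nil _⟩ (pow_le_one₀ C.hδ.le C.hδ1)⟩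

theorem Om_SC {v u : V} {L : ℕ} (hL : C.h^[L] v = v) (h : C.SC v u) : C.Om u L = C.Om v L := by
  obtain ⟨t, rfl⟩ := h; exact C.Om_shift hL t

theorem b_SC {v u : V} (hv : v ∈ C.E) (h : C.SC v u) : C.b u = C.b v := by
  obtain ⟨t, rfl⟩ := h; exact C.b_iter hv t

theorem glob (hK : C.IsK C.δ C.i K) {β : V} (hβ : β ∈ K) :
    ‖C.Om β (MM V) - C.Om (C.Lab C.i 0) (MM V)‖ ≤ 4 * MM V * qq V * C.δ := by
  have hE := hK.mem_E hβ
  have hα := C.Lab_mem C.i 0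
  have hδ := C.hδ
  by_cases hsc : C.SC (C.Lab C.i 0) β
  · rw [C.Om_SC (C.iter_M hα dvd_rfl) hsc, sub_self, norm_zero]; positivity
  have hb := C.b_add_le hα hE hsc
  have hb0 := C.b_pos hα
  have hef := C.ce_add_cf
  have hnM := le_MM V
  have hn := C.hn
  set v := C.h^[Fintype.card V - 1] C.i with hv
  have hvE : v ∈ C.E := C.iter_mem_E _ (by omega)
  have hva : C.h^[MM V - (Fintype.card V - 1)] v = C.Lab C.i 0 := by
    rw [hv, ← iterate_add_apply, Dat.Lab]; congr 1; omega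
  have hsc' : C.SC v (C.Lab C.i 0) := ⟨_, hva⟩
  obtain ⟨k, -, hW⟩ := Dat.RTG_weight C.hδ.le C.hδ1 (hK.reach β hβ)
  have h1 := C.W0_h v (MM V - (Fintype.card V - 1))
  rw [hva] at h1
  obtain ⟨k', hk', hW'⟩ := (h1.trans hW (pow_nonneg hδ.le _)).shorten1
  set L := C.b (C.Lab C.i 0) * C.b β with hL
  have hLv : C.h^[L] v = v := C.iter_of_dvd v (by rw [← C.b_SC hvE hsc']; exact Dvd.intro _ rfl)
  have hLβ : C.h^[L] β = β := C.iter_of_dvd β (Dvd.intro_left _ rfl)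
  have hLα : C.h^[L] (C.Lab C.i 0) = C.Lab C.i 0 := C.iter_of_dvd _ (Dvd.intro _ rfl)
  have hc := C.cmp hLv hLβ (C.W0_h C.i (Fintype.card V - 1)) hW'
    (time4 (qq_add V) (hb.trans C.ce_le) (by omega) hk') zero_le_one (by positivity) C.hδ1 le_rfl
    (by simp)
  rw [← C.Om_SC hLv hsc', mul_one, norm_sub_rev] at hc
  obtain ⟨N, hN⟩ := C.b_mul_dvd hα hE
  rw [← hL, mul_comm] at hN
  have hNM : (N : ℝ) ≤ MM V := by
    have : N ≤ MM V := by
      rw [hN]; exact Nat.le_mul_of_pos_right _ (Nat.mul_pos hb0 (C.b_pos hE))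
    exact_mod_cast this
  conv_lhs => rw [hN, C.Om_mul hLβ, C.Om_mul hLα]
  refine (norm_pow_sub (C.Om_norm _ _) (C.Om_norm _ _) N).trans ?_
  calc _ ≤ (MM V : ℝ) * (4 * qq V * C.δ) := mul_le_mul hNM hc (norm_nonneg _) (by positivity)
    _ = _ := by ring

theorem Lab_back {j : V} {s N L : ℕ} (h : C.h^[L] (C.Lab j (s + N * L)) = C.Lab j (s + N * L)) :
    C.Lab j s = C.Lab j (s + N * L) := by
  apply C.Lab_congr j (g := L)
  · rw [← C.b_Lab j (s + N * L)]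
    exact isPeriodicPt_iff_minimalPeriod_dvd.1 h
  · exact Nat.modEq_iff_dvd' (by omega) |>.2 (by simp)

theorem core2 (hK : C.IsK C.δ C.i K) {j z : V} {s s0 k N L : ℕ} {a a' w : ℝ} {φ : ℂ}
    (hs0 : s0 = s + N * L) (hd : C.Lab j s0 ∈ K) (hd' : C.Lab z (s0 + k) ∈ K)
    (hL : C.h^[L] (C.Lab j s0) = C.Lab j s0)
    (hL' : C.h^[L] (C.Lab z (s0 + k)) = C.Lab z (s0 + k))
    (hW : C.W0 C.i j s a) (hW' : C.W j z k a' φ)
    (hs : s + k + C.cf ≤ qq V) (ha0 : 0 ≤ a) (ha0' : 0 ≤ a') (hw : C.δ ≤ w) (hw1 : w ≤ 1)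
    (ha : C.δ ^ (Fintype.card V - 1) * w ≤ a * a') :
    ‖C.yt s0 j - φ * C.yt (s0 + k) z‖ * w ≤ 5 * qq V * C.δ +
      N * (‖C.Om (C.Lab j s0) L - C.Om (C.Lab z (s0 + k)) L‖ * w) := by
  have hw0 : 0 < w := C.hδ.trans_le hw
  have e : s0 + k = s + k + N * L := by omega
  rw [e] at hL' hd' ⊢
  subst hs0
  have h1 := C.Lab_back hL
  have h2 := C.Lab_back hL'
  rw [← h1] at hL hd ⊢
  rw [← h2] at hL' hd' ⊢
  have h3 := C.core (C.hasDef hK hd) (C.hasDef hK hd') hW hW' hs ha0 ha0' hw hw1 ha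
  have h4 := mul_le_mul_of_nonneg_right (C.transfer hW'.norm hL hL' N) hw0.le
  linarith

theorem gcheck (hK : C.IsK C.δ C.i K) {v z : V} {s0 k B : ℕ} {a w : ℝ} {φ : ℂ} (hv : v ∈ C.E)
    (hg : C.Lab v s0 ∈ K) (hq : qq V ≤ s0) (hB : s0 ≤ B) (hW : C.W v z k a φ)
    (hk : k ≤ C.cf + 1) (hw : C.δ ≤ w) (hwa : w ≤ a) (hb : C.b v + 1 ≤ C.ce) :
    ‖C.yt s0 v - φ * C.yt (s0 + k) z‖ * w ≤ (5 + 4 * B) * qq V * C.δ := by
  have hδ := C.hδ
  have hw0 : 0 < w := C.hδ.trans_le hw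
  have hw1 : w ≤ 1 := hwa.trans hW.le_one
  have hd0 : 0 ≤ C.δ ^ (Fintype.card V - 1) := pow_nonneg C.hδ.le _
  have hg' := hK.walk hδ.le hv hg ⟨_, hW⟩ (hw.trans hwa)
  obtain ⟨s, hs, hWi⟩ := hK.reach_good C.hδ.le C.hδ1 hv hg
  obtain ⟨s', h1, h2, h3⟩ := Dat.W0.shorten (C.b_pos hv) s hWi
  have ht2 := time2 (qq_add V) C.ce_add_cf hb C.hn h1 hk
  have h4 : s' ≡ s0 [MOD C.b v] := h2.trans (hs.of_dvd (C.b_dvd hv))
  obtain ⟨m, hm⟩ := (Nat.modEq_iff_dvd' (by omega)).1 h4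
  have hmB : m ≤ B := by
    have : m ≤ C.b v * m := Nat.le_mul_of_pos_left _ (C.b_pos hv)
    omega
  have hwt : C.δ ^ (Fintype.card V - 1) * w ≤ C.δ ^ (Fintype.card V - 1) * a :=
    mul_le_mul_of_nonneg_left hwa hd0
  have hsv := C.SC_Lab v s0
  set β' := C.Lab z (s0 + k) with hβ'
  have hβE : β' ∈ C.E := C.Lab_mem _ _
  by_cases hsc : C.SC v β'
  · have hLv : C.h^[C.b v] v = v := C.iter_of_dvd v dvd_rfl
    have := C.core2 hK (s := s') (N := m) (L := C.b v) (by rw [mul_comm]; omega) hg hg'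
      (C.iter_of_dvd _ (by rw [C.b_SC hv hsv])) (C.iter_of_dvd _ (by rw [C.b_SC hv hsc]))
      h3 hW ht2 hd0 (hw0.le.trans hwa) hw hw1 hwt
    rw [C.Om_SC hLv hsv, C.Om_SC hLv hsc, sub_self, norm_zero] at this
    have h5 : (0 : ℝ) ≤ 4 * B * qq V * C.δ := by positivity
    linarith
  · have hbb := C.b_add_le hv hβE hsc
    have hb' := C.b_pos hβE
    set L := C.b v * C.b β' with hL
    have hLv : C.h^[L] v = v := C.iter_of_dvd v (Dvd.intro _ rfl)
    have hLβ : C.h^[L] β' = β' := C.iter_of_dvd _ (Dvd.intro_left _ rfl)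
    have h5 := C.W0_h v (m % C.b β' * C.b v)
    rw [C.iter_of_dvd v (Dvd.intro_left _ rfl)] at h5
    have h6 := h3.trans h5 zero_le_one
    rw [mul_one] at h6
    have h7 : s0 = s' + m % C.b β' * C.b v + m / C.b β' * L := by
      have := Nat.mod_add_div m (C.b β')
      have e : m % C.b β' * C.b v + m / C.b β' * L =
          C.b v * (m % C.b β' + C.b β' * (m / C.b β')) := by rw [hL]; ring
      rw [add_assoc, e, this]; omega
    have h8 := C.core2 hK h7 hg hg'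
      (C.iter_of_dvd _ (by rw [C.b_SC hv hsv]; exact Dvd.intro _ rfl)) hLβ h6 hW
      (time3 (qq_add V) C.ce_add_cf hbb (C.b_pos hv) h1 hk (Nat.mod_lt _ hb')) hd0
      (hw0.le.trans hwa) hw hw1 hwt
    obtain ⟨s1, hs1, hW1⟩ := hWi.shorten1
    have h9 : C.W0 z β' (MM V + (MM V - 1) * (s0 + k)) 1 := C.W0_h z _
    obtain ⟨k1, hk1, hW2⟩ := (Dat.W0.trans ⟨_, hW⟩ h9 zero_le_one).shorten1
    rw [mul_one] at hW2
    have h10 := C.cmp hLv hLβ hW1 hW2 (time4 (qq_add V) (hbb.trans C.ce_le) hs1 hk1) hd0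
      (hw0.le.trans hwa) hw hw1 hwt
    rw [C.Om_SC hLv hsv] at h8
    have h11 : ((m / C.b β' : ℕ) : ℝ) ≤ B := by
      exact_mod_cast (Nat.div_le_self _ _).trans hmB
    have h12 := mul_le_mul h11 h10 (by positivity) (by positivity)
    linarith

theorem check (hK : C.IsK C.δ C.i K) {v j l : V} {s0 k B : ℕ} {a w : ℝ} (hv : v ∈ C.E)
    (hg : C.Lab v s0 ∈ K) (hq : qq V ≤ s0) (hB : s0 ≤ B) (hW : C.W0 v j k a)
    (hk : k ≤ C.cf) (ha0 : 0 ≤ a) (hw : C.δ ≤ w) (hwa : w ≤ a * C.pt j l) :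
    ‖C.yt (s0 + k) j - C.om j l * C.yt (s0 + k + 1) l‖ * w ≤ 2 * (5 + 4 * B) * qq V * C.δ := by
  have hδ := C.hδ
  have hw0 : 0 < w := C.hδ.trans_le hw
  have hwa' : w ≤ a := hwa.trans (mul_le_of_le_one_right ha0 (C.pt_le _ _))
  have hw1 : w ≤ 1 := hwa'.trans hW.le_one
  have hd0 : 0 ≤ C.δ ^ (Fintype.card V - 1) := pow_nonneg C.hδ.le _
  by_cases hl : l = C.h j
  · have := C.yt_iter j (s0 + k) 1
    rw [Dat.Om_one, iterate_one, ← hl] at this
    rw [this, sub_self, norm_zero, zero_mul]; positivity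
  obtain ⟨φ, hφ⟩ := hW
  have hφ' := hφ.trans (Dat.W.edge j l) (C.pt_nonneg _ _)
  have hj := hK.walk hδ.le hv hg ⟨_, hφ⟩ (hw.trans hwa')
  have hl' := hK.walk hδ.le hv hg ⟨_, hφ'⟩ (hw.trans hwa)
  rw [← add_assoc] at hl'
  have hjE := C.Lab_mem j (s0 + k)
  have hlE := C.Lab_mem l (s0 + k + 1)
  by_cases hsc : C.SC (C.Lab j (s0 + k)) (C.Lab l (s0 + k + 1))
  · have key : ∃ s', s' ≡ s0 + k [MOD C.b (C.Lab j (s0 + k))] ∧ s' + 1 + C.cf ≤ qq V ∧
        C.W0 C.i j s' (C.δ ^ (Fintype.card V - 1) * a) := by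
      rcases ((C.b_le hjE).trans C.ce_le).lt_or_eq with hlt | heq
      · obtain ⟨s, hs, hWi⟩ := hK.reach_good C.hδ.le C.hδ1 hv hg
        obtain ⟨s', h1, h2, h3⟩ := Dat.W0.shorten (C.b_pos hjE) _ (hWi.trans ⟨_, hφ⟩ ha0)
        exact ⟨s', h2.trans ((hs.of_dvd (C.b_dvd hjE)).add_right k),
          time1 (qq_add V) C.ce_add_cf (C.b_le hjE) hlt h1, h3⟩
      · obtain ⟨s', q1, q2, q3⟩ := hK.special C.hδ.le C.hδ1 hjE heq hl
          (hw.trans (hwa.trans (mul_le_of_le_one_left (C.pt_nonneg _ _) hφ.le_one))) hj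
        refine ⟨s', by rwa [heq], ?_, q3.mono (mul_le_of_le_one_right hd0 hφ.le_one)⟩
        have := C.b_le hjE
        have := C.ce_add_cf
        have := qq_add V
        omega
    obtain ⟨s', h1, h2, h3⟩ := key
    obtain ⟨m, hm⟩ := (Nat.modEq_iff_dvd' (by omega)).1 h1
    have hLv : C.h^[C.b (C.Lab j (s0 + k))] (C.Lab j (s0 + k)) = C.Lab j (s0 + k) :=
      C.iter_of_dvd _ dvd_rfl
    have := C.core2 hK (s := s') (N := m) (L := C.b (C.Lab j (s0 + k)))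
      (by rw [mul_comm]; omega) hj hl' hLv (C.iter_of_dvd _ (by rw [C.b_SC hjE hsc]))
      h3 (Dat.W.edge j l) h2 (by positivity) (C.pt_nonneg _ _) hw hw1
      (by rw [mul_assoc]; exact mul_le_mul_of_nonneg_left hwa hd0)
    rw [C.Om_SC hLv hsc, sub_self, norm_zero] at this
    have h5 : (0 : ℝ) ≤ B * qq V * C.δ := by positivity
    have h6 : (0 : ℝ) ≤ qq V * C.δ := by positivity
    linarith
  · have hb : C.b v + 1 ≤ C.ce := by
      by_cases h1 : C.SC v (C.Lab j (s0 + k))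
      · have h2 : ¬ C.SC v (C.Lab l (s0 + k + 1)) := fun h2 =>
          hsc (C.SC_trans (C.SC_symm hv h1) h2)
        have := C.b_add_le hv hlE h2
        have := C.b_pos hlE
        omega
      · have := C.b_add_le hv hjE h1
        have := C.b_pos hjE
        omega
    have g1 := C.gcheck hK hv hg hq hB hφ (by omega) hw hwa' hb
    have g2 := C.gcheck hK hv hg hq hB hφ' (by omega) hw hwa hb
    rw [← add_assoc] at g2
    have e : φ * (C.yt (s0 + k) j - C.om j l * C.yt (s0 + k + 1) l) =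
        (C.yt s0 v - φ * C.om j l * C.yt (s0 + k + 1) l) - (C.yt s0 v - φ * C.yt (s0 + k) j) := by
      ring
    have h1 := norm_sub_le (C.yt s0 v - φ * C.om j l * C.yt (s0 + k + 1) l)
      (C.yt s0 v - φ * C.yt (s0 + k) j)
    rw [← e, norm_mul, hφ.norm, one_mul] at h1
    have h2 := mul_le_mul_of_nonneg_right h1 hw0.le
    linarith

end Ctx

end Pool.Agent.MP_c71a08_an.H15
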