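import Mathlib

/-! A slowly moving cycle with a small rotation at its last vertex. -/

namespace Pool.Agent.MP_c71a08_an.H15

open Finset Matrix

/-- diagonal of the example -/
noncomputable def dg (m : ℕ) (θ η : ℝ) (j : Fin (m + 1)) : ℂ :=
  if j = Fin.last m then ⟨1 - η - θ ^ 2 * η ^ 2, θ * η⟩ else ((1 - η : ℝ) : ℂ)

/-- the example -/
noncomputable def Ex (m : ℕ) (θ η : ℝ) : Matrix (Fin (m + 1)) (Fin (m + 1)) ℂ :=
  fun j l => (if l = j then dg m θ η j else 0) + (if l = j + 1 then (η : ℂ) else 0)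

variable {m : ℕ} {θ η : ℝ}

theorem Ex_mulVec (z : Fin (m + 1) → ℂ) (j : Fin (m + 1)) :
    (Ex m θ η *ᵥ z) j = dg m θ η j * z j + η * z (j + 1) := by
  simp [Ex, mulVec, dotProduct, add_mul, sum_add_distrib]

theorem dg_last : dg m θ η (Fin.last m) = ⟨1 - η - θ ^ 2 * η ^ 2, θ * η⟩ := if_pos rfl

theorem dg_cast (j : Fin m) : dg m θ η j.castSucc = ((1 - η : ℝ) : ℂ) :=
  if_neg (Fin.castSucc_lt_last j).ne

theorem dg_norm (hθ : 2 ≤ θ) (h0 : 0 ≤ η) (h1 : θ * η ≤ 1 / 2) (j : Fin (m + 1)) :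
    ‖dg m θ η j‖ ≤ 1 - η := by
  have hη : η ≤ 1 / 4 := by nlinarith
  unfold dg; split_ifs
  · have hk : θ ^ 2 * η ^ 2 ≤ 1 / 4 := by
      have : 0 ≤ θ * η := by positivity
      nlinarith
    have hk0 : 0 ≤ θ ^ 2 * η ^ 2 := by positivity
    refine (sq_le_sq₀ (norm_nonneg _) (by linarith)).1 ?_
    rw [Complex.sq_norm, Complex.normSq_mk]
    nlinarith [mul_nonneg hk0 (show 0 ≤ 1 - 2 * η - θ ^ 2 * η ^ 2 by linarith)]
  · rw [Complex.norm_real, Real.norm_of_nonneg (by linarith)]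

theorem Ex_row (hθ : 2 ≤ θ) (h0 : 0 ≤ η) (h1 : θ * η ≤ 1 / 2) (j : Fin (m + 1)) :
    ∑ l, ‖Ex m θ η j l‖ ≤ 1 := by
  have h : ∀ l ∈ (univ : Finset (Fin (m + 1))), ‖Ex m θ η j l‖ ≤
      (if l = j then 1 - η else 0) + (if l = j + 1 then η else 0) := by
    intro l _
    refine (norm_add_le _ _).trans (add_le_add ?_ ?_)
    · split_ifs
      · exact dg_norm hθ h0 h1 j
      · simp
    · split_ifs
      · rw [Complex.norm_real, Real.norm_of_nonneg h0]
      · simp
  refine (sum_le_sum h).trans (le_of_eq ?_)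
  simp [sum_add_distrib]

theorem Ex_spec (hm : 1 ≤ m) (hθ : θ = 2 ^ (m + 2)) (h0 : 0 < η) (h1 : θ * η ≤ 1 / 2) (μ : ℂ)
    (hμ : μ ∈ spectrum ℂ (Ex m θ η)) : ‖μ‖ ≤ 1 - η / 2 := by
  have hθ2 : 2 ≤ θ := by
    rw [hθ]; exact le_self_pow₀ one_le_two (by omega)
  by_contra hlt
  push Not at hlt
  rw [spectrum.mem_iff, isUnit_iff_isUnit_det, isUnit_iff_ne_zero, not_not,
    ← exists_mulVec_eq_zero_iff] at hμ
  obtain ⟨v, hv0, hv⟩ := hμ
  have hrel : ∀ j, ‖μ - dg m θ η j‖ * ‖v j‖ = η * ‖v (j + 1)‖ := by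
    intro j
    have := congrFun hv j
    rw [sub_mulVec, Algebra.algebraMap_eq_smul_one, smul_mulVec, one_mulVec, Pi.sub_apply,
      Ex_mulVec, Pi.smul_apply, smul_eq_mul, Pi.zero_apply] at this
    have e : (μ - dg m θ η j) * v j = η * v (j + 1) := by linear_combination this
    have := congrArg norm e
    rwa [norm_mul, norm_mul, Complex.norm_real, Real.norm_of_nonneg h0.le] at this
  have hlow : ∀ j, η / 2 ≤ ‖μ - dg m θ η j‖ := by
    intro j
    have := norm_sub_norm_le μ (dg m θ η j)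
    have := dg_norm hθ2 h0.le h1 j
    linarith
  set a := ‖μ - ((1 - η : ℝ) : ℂ)‖ with ha
  set a' := ‖μ - dg m θ η (Fin.last m)‖ with ha'
  have ha1 : η / 2 ≤ a := by
    have := hlow (Fin.castSucc ⟨0, hm⟩)
    rwa [dg_cast] at this
  have ha2 : η / 2 ≤ a' := hlow _
  have hsum : θ * η ≤ a + a' := by
    have e1 := norm_sub_le (μ - ((1 - η : ℝ) : ℂ)) (μ - dg m θ η (Fin.last m))
    have e2 := Complex.abs_im_le_norm ((μ - ((1 - η : ℝ) : ℂ)) - (μ - dg m θ η (Fin.last m)))
    have e3 : ((μ - ((1 - η : ℝ) : ℂ)) - (μ - dg m θ η (Fin.last m))).im = θ * η := by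
      simp [dg_last]
    rw [e3] at e2
    exact (le_abs_self _).trans (e2.trans e1)
  have hj : ∀ j : Fin (m + 1), ‖v j‖ * η ^ (j : ℕ) = a ^ (j : ℕ) * ‖v 0‖ := by
    intro j
    induction j using Fin.induction with
    | zero => simp
    | succ j ih =>
      have := hrel j.castSucc
      rw [dg_cast, Fin.coeSucc_eq_succ, ← ha] at this
      rw [Fin.val_castSucc] at ih
      rw [Fin.val_succ, pow_succ, pow_succ]
      linear_combination a * ih - η ^ (j : ℕ) * this
  have hv00 : 0 < ‖v 0‖ := by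
    rcases (norm_nonneg (v 0)).lt_or_eq with h | h
    · exact h
    · exfalso; apply hv0
      ext j
      have := hj j
      rw [← h, mul_zero, mul_eq_zero] at this
      rcases this with h | h
      · simpa using h
      · exact absurd h (pow_pos h0 _).ne'
  have e1 := hj (Fin.last m)
  have e2 := hrel (Fin.last m)
  rw [Fin.last_add_one, ← ha'] at e2
  rw [Fin.val_last] at e1
  have e3 : a ^ m * a' = η ^ (m + 1) := by
    apply mul_right_cancel₀ hv00.ne'
    rw [pow_succ]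
    linear_combination η ^ m * e2 - a' * e1
  obtain ⟨k, rfl⟩ : ∃ k, m = k + 1 := ⟨m - 1, by omega⟩
  have e4 : (η / 2) ^ k ≤ a ^ k := pow_le_pow_left₀ (by positivity) ha1 k
  have e5 : η / 2 * (θ * η / 2) ≤ a * a' := by
    have : 0 ≤ θ * η := by positivity
    rcases le_total a a' with h | h
    · exact mul_le_mul ha1 (by linarith) (by positivity) (by linarith)
    · rw [mul_comm]; exact mul_le_mul (by linarith) ha2 (by positivity) (by linarith)
  have e6 := mul_le_mul e4 e5 (by positivity) (by positivity)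
  have e7 : (η / 2) ^ k * (η / 2 * (θ * η / 2)) = 2 * η ^ (k + 1 + 1) := by
    rw [hθ, div_pow]; field_simp; ring
  have e8 : 0 < η ^ (k + 1 + 1) := pow_pos h0 _
  rw [e7, ← mul_assoc, ← pow_succ, e3] at e6
  linarith

theorem Ex_loss (hθ : 2 ≤ θ) (k : ℕ) : ∃ A : ℝ, 0 ≤ A ∧ ∀ η : ℝ, 0 ≤ η →
    θ * η ≤ 1 / 2 → ∀ j : Fin (m + 1),
      ‖(Ex m θ η ^ k *ᵥ fun _ => 1) j - 1‖ ≤ A * η ^ (m - j + 1) ∧
      |((Ex m θ η ^ k *ᵥ fun _ => 1) j - 1).re| ≤ A * η ^ (m - j + 2) := by
  induction k with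
  | zero => exact ⟨0, le_rfl, fun η _ _ j => by simp⟩
  | succ k ih =>
    obtain ⟨A, hA, ih⟩ := ih
    refine ⟨(2 + θ) * A + θ ^ 2 + θ, by positivity, fun η h0 h1 j => ?_⟩
    have hη : η ≤ 1 / 4 := by nlinarith
    have ih := ih η h0 h1
    rw [pow_succ', ← mulVec_mulVec, Ex_mulVec]
    set w := Ex m θ η ^ k *ᵥ fun _ => 1
    have hθA : 0 ≤ θ * A := by positivity
    induction j using Fin.lastCases with
    | cast j =>
      obtain ⟨a1, a2⟩ := ih j.castSucc
      obtain ⟨b1, b2⟩ := ih j.succ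
      rw [dg_cast, Fin.coeSucc_eq_succ]
      have hj := j.2
      obtain ⟨e, he⟩ : ∃ e, m - j = e + 1 := ⟨m - j - 1, by omega⟩
      have he' : m - (j + 1) = e := by omega
      rw [Fin.val_castSucc, he] at a1 a2 ⊢
      rw [Fin.val_succ, he'] at b1 b2
      have e1 : ((1 - η : ℝ) : ℂ) * w j.castSucc + η * w j.succ - 1 =
          ((1 - η : ℝ) : ℂ) * (w j.castSucc - 1) + η * (w j.succ - 1) := by push_cast; ring
      rw [e1]
      have p1 : 0 ≤ η ^ (e + 1 + 1) := by positivity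
      have p2 : 0 ≤ η ^ (e + 1 + 2) := by positivity
      constructor
      · refine (norm_add_le _ _).trans ?_
        rw [norm_mul, norm_mul, Complex.norm_real, Complex.norm_real,
          Real.norm_of_nonneg (by linarith), Real.norm_of_nonneg h0]
        have c1 := mul_le_of_le_one_left (norm_nonneg (w j.castSucc - 1)) (show 1 - η ≤ 1 by linarith)
        have c2 := mul_le_mul_of_nonneg_left b1 h0
        have c3 : η * (A * η ^ (e + 1)) = A * η ^ (e + 1 + 1) := by ring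
        have c4 : 0 ≤ (θ * A + θ ^ 2 + θ) * η ^ (e + 1 + 1) := by positivity
        linarith
      · rw [Complex.add_re, Complex.re_ofReal_mul, Complex.re_ofReal_mul]
        refine (abs_add_le _ _).trans ?_
        rw [abs_mul, abs_mul, abs_of_nonneg (show 0 ≤ 1 - η by linarith), abs_of_nonneg h0]
        have c1 := mul_le_of_le_one_left (abs_nonneg (w j.castSucc - 1).re)
          (show 1 - η ≤ 1 by linarith)
        have c2 := mul_le_mul_of_nonneg_left b2 h0
        have c3 : η * (A * η ^ (e + 2)) = A * η ^ (e + 1 + 2) := by ring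
        have c4 : 0 ≤ (θ * A + θ ^ 2 + θ) * η ^ (e + 1 + 2) := by positivity
        linarith
    | last =>
      obtain ⟨a1, a2⟩ := ih (Fin.last m)
      obtain ⟨b1, -⟩ := ih 0
      rw [Fin.last_add_one]
      rw [Fin.val_last, Nat.sub_self, zero_add] at a1 ⊢
      rw [Fin.val_last, Nat.sub_self, zero_add] at a2
      rw [zero_add]
      have b2 : ‖w 0 - 1‖ ≤ A * η := by
        refine b1.trans (mul_le_mul_of_nonneg_left ?_ hA)
        exact pow_le_of_le_one h0 (by linarith) (by omega)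
      have hd := dg_norm (m := m) hθ h0 h1 (Fin.last m)
      set d := dg m θ η (Fin.last m) with hdd
      have hre : d.re = 1 - η - θ ^ 2 * η ^ 2 := by rw [hdd, dg_last]
      have him : d.im = θ * η := by rw [hdd, dg_last]
      have e1 : d * w (Fin.last m) + η * w 0 - 1 =
          d * (w (Fin.last m) - 1) + η * (w 0 - 1) + (d + η - 1) := by ring
      rw [e1]
      set z := w (Fin.last m) - 1
      set z0 := w 0 - 1
      have g1 : (d + η - 1).re = -(θ ^ 2 * η ^ 2) := by simp [hre]; ring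
      have g2 : (d + η - 1).im = θ * η := by simp [him]
      have hθη : 0 ≤ θ * η := by positivity
      have hAη : 0 ≤ A * η := by positivity
      rw [pow_one] at a1 ⊢
      constructor
      · have c0 := Complex.norm_le_abs_re_add_abs_im (d + η - 1)
        rw [g1, g2, abs_neg, abs_of_nonneg (by positivity), abs_of_nonneg hθη] at c0
        have c1 := norm_add_le (d * z + η * z0) (d + η - 1)
        have c2 := norm_add_le (d * z) (η * z0)
        rw [norm_mul, norm_mul, Complex.norm_real, Real.norm_of_nonneg h0] at c2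
        have c3 := mul_le_of_le_one_left (norm_nonneg z) (show ‖d‖ ≤ 1 by linarith)
        have c4 := mul_le_of_le_one_left (norm_nonneg z0) (show η ≤ 1 by linarith)
        have c5 : θ ^ 2 * η ^ 2 ≤ θ ^ 2 * η :=
          mul_le_mul_of_nonneg_left (by nlinarith) (by positivity)
        have c6 : 0 ≤ θ * A * η := by positivity
        linarith
      · rw [Complex.add_re, Complex.add_re, g1, Complex.re_ofReal_mul, Complex.mul_re, him]
        have c1 : |d.re * z.re| ≤ A * η ^ 2 := by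
          rw [abs_mul]
          exact (mul_le_of_le_one_left (abs_nonneg _)
            ((Complex.abs_re_le_norm d).trans (by linarith))).trans a2
        have c2 : |θ * η * z.im| ≤ θ * η * (A * η) := by
          rw [abs_mul, abs_of_nonneg hθη]
          exact mul_le_mul_of_nonneg_left ((Complex.abs_im_le_norm z).trans a1) hθη
        have c3 : |η * z0.re| ≤ η * (A * η) := by
          rw [abs_mul, abs_of_nonneg h0]
          exact mul_le_mul_of_nonneg_left ((Complex.abs_re_le_norm z0).trans b2) h0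
        have c4 : 0 ≤ θ * η ^ 2 := by positivity
        have c5 : 0 ≤ θ ^ 2 * η ^ 2 := by positivity
        rw [abs_le] at c1 c2 c3 ⊢
        constructor <;> nlinarith [c1.1, c1.2, c2.1, c2.2, c3.1, c3.2]

/-- the example loses only `C (1 - r)^(n+1)` -/
theorem lower (hm : 1 ≤ m) (k : ℕ) : ∃ A η0 : ℝ, 0 ≤ A ∧ 0 < η0 ∧ ∀ r : ℝ, r < 1 → 1 - r ≤ η0 →
    ∃ T : Matrix (Fin (m + 1)) (Fin (m + 1)) ℂ, (∀ j, ∑ l, ‖T j l‖ ≤ 1) ∧
      (∀ μ ∈ spectrum ℂ T, ‖μ‖ ≤ r) ∧ 1 - A * (1 - r) ^ (m + 2) ≤ ∑ l, ‖(T ^ k) 0 l‖ := by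
  have hθ2 : (2 : ℝ) ≤ 2 ^ (m + 2) := le_self_pow₀ one_le_two (by omega)
  obtain ⟨A, hA, h⟩ := Ex_loss (m := m) hθ2 k
  refine ⟨A * 2 ^ (m + 2), 1 / (4 * 2 ^ (m + 2)), by positivity, by positivity,
    fun r h1 h2 => ?_⟩
  have h0 : 0 < 2 * (1 - r) := by linarith
  have h3 : (2 : ℝ) ^ (m + 2) * (2 * (1 - r)) ≤ 1 / 2 := by
    rw [le_div_iff₀ (by positivity)] at h2
    linarith
  refine ⟨Ex m (2 ^ (m + 2)) (2 * (1 - r)), Ex_row hθ2 h0.le h3, fun μ hμ => ?_, ?_⟩
  · have := Ex_spec hm rfl h0 h3 μ hμ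
    linarith
  · obtain ⟨-, h4⟩ := h _ h0.le h3 0
    set U := Ex m (2 ^ (m + 2)) (2 * (1 - r)) ^ k
    have h5 : ((U *ᵥ fun _ => 1) 0).re ≤ ∑ l, ‖U 0 l‖ := by
      refine (Complex.re_le_norm _).trans ?_
      rw [mulVec, dotProduct]
      simpa using norm_sum_le univ fun l => U 0 l
    rw [abs_le, Complex.sub_re, Complex.one_re, Fin.val_zero, Nat.sub_zero, mul_pow] at h4
    linarith [h4.1]

end Pool.Agent.MP_c71a08_an.H15
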