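import Pool.Agent.MP_c71a08_an.H15.Walks

/-! Labels, the label graph and its terminal component. -/

set_option linter.unusedSectionVars false

namespace Pool.Agent.MP_c71a08_an.H15

open Finset Function

variable {V : Type} [Fintype V] [DecidableEq V] (D : Dat V)

namespace Dat

theorem ce_le : D.ce ≤ Fintype.card V := by have := D.ce_add_cf; omega

theorem cf_le : D.cf ≤ Fintype.card V := by have := D.ce_add_cf; omega

theorem b_mul_dvd {v u : V} (hv : v ∈ D.E) (hu : u ∈ D.E) : D.b v * D.b u ∣ MM V :=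
  Nat.mul_dvd_mul (Nat.dvd_factorial (D.b_pos hv) ((D.b_le hv).trans D.ce_le))
    (Nat.dvd_factorial (D.b_pos hu) ((D.b_le hu).trans D.ce_le))

theorem b_dvd {v : V} (hv : v ∈ D.E) : D.b v ∣ MM V :=
  (Dvd.intro _ rfl).trans (D.b_mul_dvd hv hv)

theorem iter_M {v : V} (hv : v ∈ D.E) {L : ℕ} (hL : MM V ∣ L) : D.h^[L] v = v :=
  D.iter_of_dvd v ((D.b_dvd hv).trans hL)

theorem MM_eq (s : ℕ) : (MM V - 1) * s + s = MM V * s := by
  obtain ⟨c, hc⟩ : ∃ c, MM V = c + 1 := ⟨MM V - 1, by have := MM_pos V; omega⟩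
  rw [hc]; simp; ring

/-- the label of the space-time point `(j, s)` -/
def Lab (j : V) (s : ℕ) : V := D.h^[MM V + (MM V - 1) * s] j

theorem Lab_mem (j : V) (s : ℕ) : D.Lab j s ∈ D.E :=
  D.iter_mem_E j (by have := D.cf_le; have := le_MM V; omega)

theorem Lab_add (j : V) (s d : ℕ) : D.Lab j (s + d) = D.h^[(MM V - 1) * d] (D.Lab j s) := by
  unfold Lab; rw [← iterate_add_apply]; congr 1; ring

theorem Lab_iter (j : V) (s t : ℕ) : D.Lab (D.h^[t] j) (s + t) = D.Lab j s := by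
  have h1 := D.iter_M (D.Lab_mem j s) (L := MM V * t) (Dvd.intro _ rfl)
  rw [← h1]
  unfold Lab
  rw [← iterate_add_apply, ← iterate_add_apply]
  congr 1
  have := MM_eq (V := V) t
  rw [mul_add]; omega

theorem Lab_zero {v : V} (hv : v ∈ D.E) : D.Lab v 0 = v := by
  unfold Lab; exact D.iter_M hv (by simp)

theorem iter_Lab {v : V} (hv : v ∈ D.E) (s : ℕ) : D.h^[s] (D.Lab v s) = v := by
  unfold Lab
  rw [← iterate_add_apply]
  apply D.iter_M hv
  have := MM_eq (V := V) s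
  exact ⟨s + 1, by rw [mul_add]; omega⟩

theorem Lab_inj {u z : V} (hu : u ∈ D.E) (hz : z ∈ D.E) {s : ℕ} (h : D.Lab u s = D.Lab z s) :
    u = z := by
  rw [← D.iter_Lab hu s, h, D.iter_Lab hz]

theorem SC_Lab (j : V) (s : ℕ) : D.SC j (D.Lab j s) := ⟨_, rfl⟩

theorem Lab_period {j : V} {s L : ℕ} (hL : D.h^[L] (D.Lab j s) = D.Lab j s) :
    D.Lab j (s + L) = D.Lab j s := by
  rw [Lab_add, mul_comm, iterate_mul]; exact iterate_fixed hL _

theorem b_Lab (j : V) (s : ℕ) : D.b (D.Lab j s) = D.b (D.Lab j 0) := by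
  have := D.Lab_add j 0 s
  rw [zero_add] at this
  rw [this, D.b_iter (D.Lab_mem j 0)]

theorem Lab_congr (j : V) {g s s' : ℕ} (hg : D.b (D.Lab j 0) ∣ g) (h : s ≡ s' [MOD g]) :
    D.Lab j s = D.Lab j s' := by
  wlog hle : s ≤ s' generalizing s s'
  · exact (this h.symm (by omega)).symm
  obtain ⟨d, rfl⟩ := Nat.exists_eq_add_of_le hle
  symm
  apply Lab_period
  apply D.iter_of_dvd
  rw [b_Lab]
  refine hg.trans ?_
  have := (Nat.modEq_iff_dvd' hle).1 h
  simpa using this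

theorem Lab_congrM (j : V) {s s' : ℕ} (h : s ≡ s' [MOD MM V]) : D.Lab j s = D.Lab j s' :=
  D.Lab_congr j (D.b_dvd (D.Lab_mem j 0)) h

/-- the label graph at threshold `δ` -/
def Gam (δ : ℝ) (α β : V) : Prop := β ∈ D.E ∧ ∃ k, MM V ∣ k ∧ D.W0 α β k δ

/-- a terminal strong component of the label graph, reachable from the label of `(i, 0)` -/
structure IsK (δ : ℝ) (i : V) (K : Set V) : Prop where
  ne : K.Nonempty
  reach : ∀ β ∈ K, Relation.ReflTransGen (D.Gam δ) (D.Lab i 0) β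
  closed : ∀ β ∈ K, ∀ γ, D.Gam δ β γ → γ ∈ K
  conn : ∀ β ∈ K, ∀ γ ∈ K, Relation.ReflTransGen (D.Gam δ) β γ

theorem exists_K (δ : ℝ) (i : V) : ∃ K, D.IsK δ i K := by
  classical
  let R : V → Finset V := fun α => univ.filter fun β => Relation.ReflTransGen (D.Gam δ) α β
  obtain ⟨α, hα, hmin⟩ := exists_min_image (R (D.Lab i 0)) (fun α => (R α).card)
    ⟨D.Lab i 0, by simp only [R, mem_filter, mem_univ, true_and]; exact .refl⟩
  have hα' : Relation.ReflTransGen (D.Gam δ) (D.Lab i 0) α := by simpa [R] using hα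
  refine ⟨{β | Relation.ReflTransGen (D.Gam δ) α β}, ⟨α, .refl⟩, fun β hβ => hα'.trans hβ,
    fun β hβ γ hγ => Relation.ReflTransGen.tail hβ hγ, fun β hβ γ hγ => ?_⟩
  have hsub : R β ⊆ R α := by
    intro x hx
    simp only [R, mem_filter, mem_univ, true_and] at hx ⊢
    exact Relation.ReflTransGen.trans hβ hx
  have hle := hmin β (by simp only [R, mem_filter, mem_univ, true_and]; exact hα'.trans hβ)
  have heq : R β = R α := eq_of_subset_of_card_le hsub hle
  have : γ ∈ R β := by rw [heq]; simp only [R, mem_filter, mem_univ, true_and]; exact hγ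
  simpa [R] using this

variable {D} {δ : ℝ} {i : V} {K : Set V}

theorem RTG_mem {α β : V} (hα : α ∈ D.E) (h : Relation.ReflTransGen (D.Gam δ) α β) :
    β ∈ D.E := by
  induction h with
  | refl => exact hα
  | tail _ h _ => exact h.1

theorem IsK.mem_E (hK : D.IsK δ i K) {β : V} (hβ : β ∈ K) : β ∈ D.E :=
  RTG_mem (D.Lab_mem i 0) (hK.reach β hβ)

theorem IsK.RTG (hK : D.IsK δ i K) {β γ : V} (hβ : β ∈ K)
    (h : Relation.ReflTransGen (D.Gam δ) β γ) : γ ∈ K := by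
  induction h with
  | refl => exact hβ
  | tail _ h ih => exact hK.closed _ ih _ h

theorem IsK.walk (hK : D.IsK δ i K) (hδ : 0 ≤ δ) {v j : V} {s0 k : ℕ} {a : ℝ} (hv : v ∈ D.E)
    (hg : D.Lab v s0 ∈ K) (hW : D.W0 v j k a) (ha : δ ≤ a) : D.Lab j (s0 + k) ∈ K := by
  refine hK.closed _ hg _ ⟨D.Lab_mem _ _, s0 + k + (MM V + (MM V - 1) * (s0 + k)), ?_, ?_⟩
  · have := MM_eq (V := V) (s0 + k)
    exact ⟨s0 + k + 1, by rw [mul_add _ (s0 + k) 1]; omega⟩
  · have h1 := D.W0_h (D.Lab v s0) s0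
    rw [D.iter_Lab hv] at h1
    have h2 := D.W0_h j (MM V + (MM V - 1) * (s0 + k))
    have := (h1.trans (hW.mono ha) hδ).trans h2 zero_le_one
    simpa [Lab] using this

theorem Gam_shift (hδ : 0 ≤ δ) {α β : V} (hα : α ∈ D.E) (h : D.Gam δ α β) (d : ℕ) :
    D.Gam δ (D.h^[(MM V - 1) * d] α) (D.h^[(MM V - 1) * d] β) := by
  obtain ⟨hβ, k, hk, hW⟩ := h
  refine ⟨D.E_iter hβ _, d + k + (MM V - 1) * d, ?_, ?_⟩
  · have := MM_eq (V := V) d
    obtain ⟨c, rfl⟩ := hk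
    exact ⟨d + c, by rw [mul_add]; omega⟩
  · have h1 := D.W0_h (D.h^[(MM V - 1) * d] α) d
    rw [← iterate_add_apply, add_comm, MM_eq, D.iter_M hα (Dvd.intro _ rfl)] at h1
    have h2 := D.W0_h β ((MM V - 1) * d)
    simpa using (h1.trans hW hδ).trans h2 zero_le_one

theorem RTG_shift (hδ : 0 ≤ δ) {α β : V} (hα : α ∈ D.E)
    (h : Relation.ReflTransGen (D.Gam δ) α β) (d : ℕ) :
    Relation.ReflTransGen (D.Gam δ) (D.h^[(MM V - 1) * d] α) (D.h^[(MM V - 1) * d] β) := by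
  induction h with
  | refl => exact .refl
  | tail h1 h ih => exact ih.tail (Gam_shift hδ (RTG_mem hα h1) h d)

theorem IsK.shift (hK : D.IsK δ i K) (hδ : 0 ≤ δ) {j l : V} {s s' d : ℕ}
    (h1 : D.Lab j s ∈ K) (h2 : D.Lab j (s + d) ∈ K) (h3 : D.Lab l s' ∈ K) :
    D.Lab l (s' + d) ∈ K := by
  rw [Lab_add] at h2 ⊢
  exact hK.RTG h2 (RTG_shift hδ (D.Lab_mem _ _) (hK.conn _ h1 _ h3) d)

/-- A heavy enough walk from a good periodic state can be replaced by a short one. -/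
theorem IsK.short (hK : D.IsK δ i K) (hδ : 0 ≤ δ) {j : V} {a : ℝ} (ha : δ ≤ a) :
    ∀ k s0 v, v ∈ D.E → D.Lab v s0 ∈ K → D.W0 v j k a →
      ∃ v' s0' k', v' ∈ D.E ∧ D.Lab v' s0' ∈ K ∧ k' ≤ D.cf ∧ s0' + k' = s0 + k ∧
        D.W0 v' j k' a := by
  classical
  intro k
  induction k using Nat.strong_induction_on with
  | _ k ih =>
    intro s0 v hv hg hW
    by_cases hk : k ≤ D.cf
    · exact ⟨v, s0, k, hv, hg, hk, rfl, hW⟩
    have hgj := hK.walk hδ hv hg hW ha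
    obtain ⟨φ, f, h0, h1, h2, -⟩ := hW
    by_cases hE : ∃ t, 1 ≤ t ∧ t ≤ k ∧ f t ∈ D.E
    · obtain ⟨t, ht1, ht2, ht3⟩ := hE
      obtain ⟨m, rfl⟩ := Nat.exists_eq_add_of_le ht2
      have hp : D.W0 v (f t) t a := by
        rw [← h0]
        exact (W0.of_fun f t).mono (h2.trans (D.wt_anti f ht2))
      have hs : D.W0 (f t) j m a := by
        rw [← h1]; exact (W0.suffix f t m).mono h2
      obtain ⟨v', s0', k', q1, q2, q3, q4, q5⟩ :=
        ih m (by omega) (s0 + t) (f t) ht3 (hK.walk hδ hv hg hp ha) hs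
      exact ⟨v', s0', k', q1, q2, q3, by omega, q5⟩
    · push Not at hE
      have hcard : (univ.filter fun j => j ∉ D.E).card < (Icc 1 k).card := by
        have : (univ.filter fun j => j ∉ D.E).card = D.cf := by unfold cf; congr
        simp; omega
      obtain ⟨s, hs, u, hu, hsu, heq⟩ := exists_ne_map_eq_of_card_lt_of_maps_to hcard
        (f := f) (fun s hs => by
          have := mem_Icc.1 (mem_coe.1 hs)
          simpa using hE s this.1 this.2)
      wlog hlt : s < u generalizing s u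
      · exact this u hu s hs hsu.symm heq.symm (by omega)
      have hu' := mem_Icc.1 hu
      obtain ⟨d, rfl⟩ := Nat.exists_eq_add_of_le hlt.le
      obtain ⟨m, hm⟩ := Nat.exists_eq_add_of_le hu'.2
      have hc := W0.cut (D := D) f s d m heq
      rw [← hm, h0, h1] at hc
      have hc' := hc.mono h2
      have hgj' := hK.walk hδ hv hg hc' ha
      have hsh : D.Lab v (s0 + d) ∈ K := by
        refine hK.shift hδ hgj' ?_ hg
        have : s0 + (s + m) + d = s0 + k := by omega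
        rwa [this]
      obtain ⟨v', s0', k', q1, q2, q3, q4, q5⟩ := ih (s + m) (by omega) (s0 + d) v hv hsh hc'
      exact ⟨v', s0', k', q1, q2, q3, by omega, q5⟩

theorem RTG_weight (hδ : 0 ≤ δ) (hδ1 : δ ≤ 1) {α β : V}
    (h : Relation.ReflTransGen (D.Gam δ) α β) :
    ∃ k, MM V ∣ k ∧ D.W0 α β k (δ ^ (Fintype.card V - 1)) := by
  let A : ℕ → Set V := fun m => {γ | ∃ k, MM V ∣ k ∧ D.W0 α γ k (δ ^ m)}
  have hmono : ∀ m m', m ≤ m' → A m ⊆ A m' := fun m m' hm γ ⟨k, hk, hW⟩ =>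
    ⟨k, hk, hW.mono (pow_le_pow_of_le_one hδ hδ1 hm)⟩
  have h0 : α ∈ A 0 := ⟨0, dvd_zero _, 1, by simpa using W.nil α⟩
  obtain ⟨m, hm, hst⟩ := chain_stab univ A (fun m => by simp) (fun m => hmono _ _ (by omega))
    ⟨α, h0⟩
  have : β ∈ A m := by
    induction h with
    | refl => exact hmono _ _ (Nat.zero_le _) h0
    | tail _ h ih =>
      obtain ⟨k, hk, hW⟩ := ih
      obtain ⟨-, k', hk', hW'⟩ := h
      exact hst ⟨k + k', dvd_add hk hk', by rw [pow_succ]; exact hW.trans hW' hδ⟩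
  rw [card_univ] at hm
  exact hmono _ _ (by omega) this

theorem W0_Lab0 (i : V) : D.W0 i (D.Lab i 0) (MM V) 1 := by
  simpa [Lab] using D.W0_h i (MM V)

theorem IsK.reach_good (hK : D.IsK δ i K) (hδ : 0 ≤ δ) (hδ1 : δ ≤ 1) {v : V} {s0 : ℕ}
    (hv : v ∈ D.E) (hg : D.Lab v s0 ∈ K) :
    ∃ s, s ≡ s0 [MOD MM V] ∧ D.W0 i v s (δ ^ (Fintype.card V - 1)) := by
  obtain ⟨k, hk, hW⟩ := RTG_weight hδ hδ1 (hK.reach _ hg)
  have h1 := D.W0_h (D.Lab v s0) s0
  rw [D.iter_Lab hv] at h1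
  refine ⟨MM V + k + s0, ?_, ?_⟩
  · obtain ⟨c, rfl⟩ := hk
    have : MM V + MM V * c + s0 = s0 + MM V * (c + 1) := by ring
    rw [this]
    exact Nat.ModEq.symm (Nat.modEq_iff_dvd' (by omega) |>.2 (by simp))
  · simpa using ((W0_Lab0 i).trans hW (pow_nonneg hδ _)).trans h1 zero_le_one

theorem no_chord (hno : ∀ j l, δ ≤ D.pt j l → l = D.h j) {α β : V} (hα : α ∈ D.E)
    (h : Relation.ReflTransGen (D.Gam δ) α β) : β = α := by
  induction h with
  | refl => rfl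
  | tail _ h ih =>
    obtain ⟨-, k, hk, φ, f, h0, h1, h2, -⟩ := h
    have key : ∀ t ≤ k, f t = D.h^[t] (f 0) := by
      intro t
      induction t with
      | zero => simp
      | succ t iht =>
        intro ht
        rw [iterate_succ_apply', ← iht (by omega)]
        apply hno
        have e1 := D.wt_anti f ht
        rw [wt_succ] at e1
        have e2 : D.wt f t * D.pt (f t) (f (t + 1)) ≤ D.pt (f t) (f (t + 1)) :=
          mul_le_of_le_one_left (D.pt_nonneg _ _) (D.wt_le_one _ _)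
        linarith
    rw [← h1, key k le_rfl, h0, ih]
    exact D.iter_M hα hk

theorem W0_pow {j : V} {a : ℕ} (hδ : 0 ≤ δ) (h : D.W0 j j a δ) (u : ℕ) :
    D.W0 j j (u * a) (δ ^ u) := by
  induction u with
  | zero => exact ⟨1, by simpa using W.nil j⟩
  | succ u ih => rw [Nat.succ_mul, pow_succ]; exact ih.trans h hδ

theorem wind {a n s' s0 : ℕ} (ha : 0 < a) (han : a < n) (h : s' ≡ s0 [MOD Nat.gcd a n]) :
    ∃ u, u < n / Nat.gcd a n ∧ s' + u * a ≡ s0 [MOD n] := by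
  have hg : Nat.gcd a n < n := lt_of_le_of_lt (Nat.gcd_le_left n ha) han
  obtain ⟨x, -, hx⟩ := Nat.exists_mul_mod_eq_gcd hg
  set g := Nat.gcd a n with hgdef
  have hgpos : 0 < g := Nat.gcd_pos_of_pos_left _ ha
  obtain ⟨o, ho⟩ : g ∣ n := Nat.gcd_dvd_right _ _
  obtain ⟨a', ha'⟩ : g ∣ a := Nat.gcd_dvd_left _ _
  have hdiv : n / g = o := by rw [ho]; exact Nat.mul_div_cancel_left _ hgpos
  have hopos : 0 < o := by
    rcases Nat.eq_zero_or_pos o with h | h
    · subst h; omega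
    · exact h
  obtain ⟨n', hn'⟩ : ∃ n', n = n' + 1 := ⟨n - 1, by omega⟩
  have hd : g ∣ s0 + n' * s' := by
    have h1 : s0 + n' * s' ≡ s' + n' * s' [MOD g] := Nat.ModEq.add_right _ h.symm
    have h2 : s' + n' * s' = g * (o * s') := by rw [← mul_assoc, ← ho, hn']; ring
    rw [h2] at h1
    exact (Nat.modEq_zero_iff_dvd.1 (h1.trans (Nat.modEq_zero_iff_dvd.2 (Dvd.intro _ rfl))))
  obtain ⟨e, he⟩ := hd
  refine ⟨(x * e) % o, by rw [hdiv]; exact Nat.mod_lt _ hopos, ?_⟩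
  have h1 : (x * e) % o * a ≡ x * e * a [MOD n] := by
    have h2 : (x * e) % o * g ≡ x * e * g [MOD o * g] :=
      Nat.ModEq.mul_right' g (Nat.mod_modEq _ _)
    rw [mul_comm o g, ← ho] at h2
    have := h2.mul_right a'
    rw [mul_assoc, mul_assoc (x * e), ← ha'] at this
    exact this
  have h3 : x * e * a ≡ g * e [MOD n] := by
    have h4 : a * x ≡ g [MOD n] := by
      unfold Nat.ModEq; rw [hx, Nat.mod_eq_of_lt hg]
    have := h4.mul_right e
    have e1 : x * e * a = a * x * e := by ring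
    rw [e1]; exact this
  have h5 := (h1.trans h3).add_left s'
  rw [← he] at h5
  refine h5.trans ?_
  have : s' + (s0 + n' * s') = s0 + n * s' := by rw [hn']; ring
  rw [this]
  exact Nat.ModEq.symm (Nat.modEq_iff_dvd' (by omega) |>.2 (by simp))

/-- The Hamiltonian case: a chord is reached in time `n² - n` with `n - 1` hops. -/
theorem IsK.special (hK : D.IsK δ i K) (hδ : 0 ≤ δ) (hδ1 : δ ≤ 1) {v : V} (hv : v ∈ D.E)
    (hb : D.b v = Fintype.card V) {j l : V} (hl : l ≠ D.h j) (hp : δ ≤ D.pt j l) {s0 : ℕ}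
    (hg : D.Lab j s0 ∈ K) :
    ∃ s', s' ≡ s0 [MOD Fintype.card V] ∧
      s' + Fintype.card V ≤ Fintype.card V * Fintype.card V ∧
      D.W0 i j s' (δ ^ (Fintype.card V - 1)) := by
  set n := Fintype.card V with hn
  have hall : ∀ u, u ∈ D.E ∧ D.b u = n := by
    intro u
    obtain ⟨t, rfl⟩ := D.full_cycle hb u
    exact ⟨D.E_iter hv t, by rw [D.b_iter hv, hb]⟩
  have hnpos : 0 < n := hb ▸ D.b_pos hv
  have hSC : ∀ u w, ∃ t, t < n ∧ D.h^[t] u = w := by
    intro u w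
    obtain ⟨t, ht⟩ := D.full_cycle (hall u).2 w
    refine ⟨t % n, Nat.mod_lt _ hnpos, ?_⟩
    rw [← ht, ← (hall u).2]
    exact iterate_mod_minimalPeriod_eq
  obtain ⟨t0, ht0, hj⟩ := hSC l j
  have ht0' : t0 + 1 < n := by
    rcases Nat.lt_or_ge (t0 + 1) n with h | h
    · exact h
    · exfalso; apply hl
      rw [← hj, ← iterate_succ_apply' D.h t0 l]
      symm; apply D.iter_of_dvd
      rw [(hall l).2, show t0.succ = n by omega]
  have hcyc : D.W0 j j (t0 + 1) δ := by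
    have h1 : D.W0 j l 1 δ := W0.mono ⟨_, W.edge j l⟩ hp
    have h2 := D.W0_h l t0
    rw [hj] at h2
    simpa [add_comm] using h1.trans h2 zero_le_one
  set g := Nat.gcd (t0 + 1) n with hgdef
  have hgpos : 0 < g := Nat.gcd_pos_of_pos_left _ (by omega)
  have hgn : g ∣ n := Nat.gcd_dvd_right _ _
  have hgM : g ∣ MM V := hgn.trans ((hall v).2 ▸ D.b_dvd hv)
  let A : ℕ → Set ℕ := fun m => {c | ∃ s, s % g = c ∧ D.W0 i j s (δ ^ m)}
  obtain ⟨t1, -, ht1⟩ := hSC i j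
  obtain ⟨m, hm, hst⟩ := chain_stab (range g) A
    (fun m c ⟨s, hs, _⟩ => by simpa [← hs] using Nat.mod_lt _ hgpos)
    (fun m c ⟨s, hs, hW⟩ => ⟨s, hs, hW.mono (pow_le_pow_of_le_one hδ hδ1 (by omega))⟩)
    ⟨t1 % g, t1, rfl, by simpa [ht1] using D.W0_h i t1⟩
  rw [card_range] at hm
  have hP : ∀ β, Relation.ReflTransGen (D.Gam δ) (D.Lab i 0) β →
      ∃ s1, g ∣ s1 ∧ D.W0 i β s1 (δ ^ m) := by
    intro β h
    induction h with
    | refl => exact ⟨MM V, hgM, (W0_Lab0 i).mono (pow_le_one₀ hδ hδ1)⟩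
    | @tail β' β _ h ih =>
      obtain ⟨s1, hs1, hW⟩ := ih
      obtain ⟨hβ, k, hk, hW'⟩ := h
      obtain ⟨t, -, ht⟩ := hSC β j
      have h1 := D.W0_h β t
      rw [ht] at h1
      have h2 : (s1 + k + t) % g ∈ A (m + 1) :=
        ⟨_, rfl, by simpa [pow_succ] using (hW.trans hW' hδ).trans h1 zero_le_one⟩
      obtain ⟨s2, hs2, hW2⟩ := hst h2
      have h3 := D.W0_h j ((MM V - 1) * t)
      have h4 : D.h^[(MM V - 1) * t] j = β := by
        rw [← ht, ← iterate_add_apply, MM_eq]; exact D.iter_M hβ (Dvd.intro _ rfl)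
      rw [h4] at h3
      refine ⟨s2 + (MM V - 1) * t, ?_, by simpa using hW2.trans h3 zero_le_one⟩
      have h5 : s2 + (MM V - 1) * t ≡ s1 + k + t + (MM V - 1) * t [MOD g] :=
        Nat.ModEq.add_right _ hs2
      have h6 : s1 + k + t + (MM V - 1) * t = s1 + k + MM V * t := by
        have := MM_eq (V := V) t; omega
      rw [h6] at h5
      exact Nat.modEq_zero_iff_dvd.1 (h5.trans (Nat.modEq_zero_iff_dvd.2
        (dvd_add (dvd_add hs1 (hgM.trans hk)) (hgM.mul_right _))))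
  obtain ⟨s1, hs1, hW1⟩ := hP _ (hK.reach _ hg)
  have h1 := D.W0_h (D.Lab j s0) s0
  rw [D.iter_Lab (hall j).1] at h1
  have h2 : D.W0 i j (s1 + s0) (δ ^ m) := by simpa using hW1.trans h1 zero_le_one
  obtain ⟨s', hs', hmod, hW'⟩ := W0.shorten hgpos _ h2
  have hmod' : s' ≡ s0 [MOD g] := by
    refine hmod.trans ?_
    simpa using (Nat.modEq_zero_iff_dvd.2 hs1).add_right s0
  obtain ⟨u, hu, hmu⟩ := wind (by omega) ht0' hmod'
  rw [← hgdef] at hu
  obtain ⟨o, ho⟩ := hgn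
  have hdiv : n / g = o := by rw [ho]; exact Nat.mul_div_cancel_left _ hgpos
  rw [hdiv] at hu
  have hg_lt : g < n := lt_of_le_of_lt (Nat.gcd_le_left n (by omega)) ht0'
  refine ⟨s' + u * (t0 + 1), hmu, ?_, ?_⟩
  · rw [← hn] at hs'
    obtain ⟨g', hg'⟩ : ∃ g', g = g' + 1 := ⟨g - 1, by omega⟩
    obtain ⟨o', ho'⟩ : ∃ o', o = o' + 1 := ⟨o - 1, by omega⟩
    obtain ⟨n', hn'⟩ : ∃ n', n = n' + 1 := ⟨n - 1, by omega⟩
    have e1 : u * (t0 + 1) ≤ o' * n' := Nat.mul_le_mul (by omega) (by omega)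
    have e2 : n' = g' * o' + g' + o' := by
      have : n' + 1 = (g' + 1) * (o' + 1) := by rw [← hn', ← hg', ← ho', ho]
      nlinarith
    have e3 : 1 ≤ o' := by
      rcases Nat.eq_zero_or_pos o' with h | h
      · subst h; omega
      · exact h
    rw [hn', hg'] at hs'
    rw [hn']
    have e4 : g' ≤ n' * (g' * o') := by
      rcases Nat.eq_zero_or_pos g' with h | h
      · omega
      · calc g' = 1 * (g' * 1) := by ring
          _ ≤ n' * (g' * o') := Nat.mul_le_mul (by omega) (Nat.mul_le_mul_left _ e3)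
    nlinarith
  · refine (hW'.trans (W0_pow hδ hcyc u) (pow_nonneg hδ _)).mono ?_
    rw [← pow_add]
    apply pow_le_pow_of_le_one hδ hδ1
    obtain ⟨g', hg'⟩ : ∃ g', g = g' + 1 := ⟨g - 1, by omega⟩
    obtain ⟨o', ho'⟩ : ∃ o', o = o' + 1 := ⟨o - 1, by omega⟩
    have : n = g' * o' + g' + o' + 1 := by rw [ho, hg', ho']; ring
    omega

end Dat

end Pool.Agent.MP_c71a08_an.H15
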