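import Mathlib

/-! A supersolution for a multi-scale recursion. -/

namespace Pool.Agent.MP_c71a08_an.H15

open Finset

/-- growth ratio between consecutive levels -/
noncomputable def BB (n N0 : ℕ) (c C1 : ℝ) : ℝ := (C1 + 2 * n + 2 * n * N0 + 1) / (c / 2) ^ n

/-- loss per step -/
noncomputable def CC2 (n N0 : ℕ) (c C1 : ℝ) : ℝ :=
  C1 + 2 * n + 2 * n * N0 * BB n N0 c C1 ^ (N0 + 1)

theorem one_le_BB {n N0 : ℕ} {c C1 : ℝ} (hc : 0 < c) (hc1 : c ≤ 1) (hC : 0 ≤ C1) :
    1 ≤ BB n N0 c C1 := by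
  unfold BB
  rw [le_div_iff₀ (by positivity), one_mul]
  have : (c / 2) ^ n ≤ 1 := pow_le_one₀ (by positivity) (by linarith)
  have : (0 : ℝ) ≤ 2 * n + 2 * n * N0 := by positivity
  linarith

theorem CC2_nonneg {n N0 : ℕ} {c C1 : ℝ} (hc : 0 < c) (hc1 : c ≤ 1) (hC : 0 ≤ C1) :
    0 ≤ CC2 n N0 c C1 := by
  have := one_le_BB (n := n) (N0 := N0) hc hc1 hC
  unfold CC2; positivity

theorem super {V : Type} [Fintype V] (p : V → V → ℝ) (ρ : V → ℕ → ℝ) (h : V → V) (r : V → ℕ)
    (Θ : Finset ℝ) (E : ℕ → V → ℕ → ℝ) (δ c C1 : ℝ) (N0 : ℕ)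
    (hp : ∀ j l, 0 ≤ p j l) (hrow : ∀ j, ∑ l, p j l ≤ 1) (hδ : 0 < δ) (hδ1 : δ < 1)
    (hc : 0 < c) (hc1 : c ≤ 1) (hC : 0 ≤ C1) (hρ1 : ∀ j s, ρ j s ≤ 1) (hΘ : ∀ j s, ρ j s ∈ Θ)
    (hN : Θ.card ≤ N0) (hstep : ∀ j s l, ρ j s * p j l ≤ ρ l (s + 1))
    (hr : ∀ j, r j ≤ Fintype.card V)
    (hlow : ∀ j s, δ < ρ j s → ρ j s < 1 → r (h j) + 1 = r j ∧ c ≤ p j (h j))
    (hE2 : ∀ k j s, E k j s ≤ 2) (hE0 : ∀ j s, E 0 j s ≤ 0)
    (hrec : ∀ k j s, δ < ρ j s → E (k + 1) j s ≤ C1 * δ / ρ j s + ∑ l, p j l * E k l (s + 1))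
    (k : ℕ) (j : V) (s : ℕ) (hj : ρ j s = 1) :
    E k j s ≤ k * (CC2 (Fintype.card V) N0 c C1 * δ) := by
  classical
  set n := Fintype.card V with hn
  set B := BB n N0 c C1 with hB
  have hB1 : 1 ≤ B := one_le_BB hc hc1 hC
  have hC2 : 0 ≤ CC2 n N0 c C1 := CC2_nonneg hc hc1 hC
  set κ := c / 2 with hκ
  have hκ0 : 0 < κ := by positivity
  have hκ1 : κ ≤ 1 := by linarith
  have hBκ : κ ^ n * B = C1 + 2 * n + 2 * n * N0 + 1 := by
    rw [hB, BB, ← hκ]; field_simp
  let a : V → ℝ := fun j => 2 - κ ^ r j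
  have ha0 : ∀ j, 0 ≤ a j := fun j => by
    have : κ ^ r j ≤ 1 := pow_le_one₀ hκ0.le hκ1
    simp only [a]; linarith
  have ha2 : ∀ j, a j ≤ 2 := fun j => by
    have : 0 < κ ^ r j := pow_pos hκ0 _
    simp only [a]; linarith
  let N : ℝ → ℕ := fun θ => (Θ.filter fun t => t < θ).card
  have hNle : ∀ θ, N θ ≤ N0 := fun θ => (card_filter_le _ _).trans hN
  let Θ' := Θ.filter fun θ => δ < θ ∧ θ < 1
  let F : ℝ → V → ℕ → ℝ := fun θ j s => if ρ j s ≤ θ then B ^ (N θ + 1) * (δ / θ) * a j else 0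
  let G : V → ℕ → ℝ := fun j s => if ρ j s ≤ δ then 2 else 0
  have hF0 : ∀ θ ∈ Θ', ∀ j s, 0 ≤ F θ j s := by
    intro θ hθ j s
    have : 0 < θ := hδ.trans (mem_filter.1 hθ).2.1
    have := ha0 j
    simp only [F]; split_ifs <;> positivity
  have hG0 : ∀ j s, 0 ≤ G j s := by intro j s; simp only [G]; split_ifs <;> norm_num
  have hsup : ∀ j s, δ < ρ j s → C1 * δ / ρ j s +
      ∑ l, p j l * (∑ θ ∈ Θ', F θ l (s + 1) + G l (s + 1)) ≤
        CC2 n N0 c C1 * δ + ∑ θ ∈ Θ', F θ j s := by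
    intro j s hrel
    have hρ0 : 0 < ρ j s := hδ.trans hrel
    set u := δ / ρ j s with hu
    have hu0 : 0 < u := by positivity
    have hple : ∀ l θ, ρ l (s + 1) ≤ θ → p j l ≤ θ / ρ j s := by
      intro l θ hl
      rw [le_div_iff₀ hρ0, mul_comm]; exact (hstep j s l).trans hl
    have h1 : ∑ l, p j l * G l (s + 1) ≤ 2 * n * u := by
      have : ∀ l ∈ (univ : Finset V), p j l * G l (s + 1) ≤ 2 * u := by
        intro l _
        simp only [G]; split_ifs with hl
        · have := hple l δ hl; linarith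
        · simp only [mul_zero]; positivity
      have := sum_le_card_nsmul _ _ _ this
      rw [card_univ, nsmul_eq_mul] at this
      linarith
    have h2 : ∀ θ ∈ Θ', ∑ l, p j l * F θ l (s + 1) ≤ F θ j s
        - (if θ = ρ j s then κ ^ n * B ^ (N θ + 1) * u else 0)
        + (if θ < ρ j s then 2 * n * B ^ (N θ + 1) * u else 0) := by
      intro θ hθ
      obtain ⟨-, hθ1, hθ2⟩ := mem_filter.1 hθ
      have hθ0 : 0 < θ := hδ.trans hθ1
      have hA : 0 < B ^ (N θ + 1) * (δ / θ) := by positivity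
      by_cases hle : ρ j s ≤ θ
      · obtain ⟨q1, q2⟩ := hlow j s hrel (hle.trans_lt hθ2)
        have e1 : ∑ l, p j l * F θ l (s + 1) ≤ B ^ (N θ + 1) * (δ / θ) * ∑ l, p j l * a l := by
          rw [mul_sum]
          refine sum_le_sum fun l _ => ?_
          have := mul_nonneg (hp j l) (ha0 l)
          simp only [F]; split_ifs
          · apply le_of_eq; ring
          · rw [mul_zero]; positivity
        have e2 : ∑ l, p j l * a l ≤ a j - κ ^ n := by
          have e3 : ∑ l, p j l * a l = 2 * ∑ l, p j l - ∑ l, p j l * κ ^ r l := by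
            simp only [a, mul_sub, sum_sub_distrib, mul_sum]
            congr 1; exact sum_congr rfl fun l _ => by ring
          have e4 : p j (h j) * κ ^ r (h j) ≤ ∑ l, p j l * κ ^ r l :=
            single_le_sum (f := fun l => p j l * κ ^ r l)
              (fun l _ => mul_nonneg (hp j l) (pow_nonneg hκ0.le _)) (mem_univ _)
          have e5 : c * κ ^ r (h j) ≤ p j (h j) * κ ^ r (h j) :=
            mul_le_mul_of_nonneg_right q2 (pow_nonneg hκ0.le _)
          have e6 : c * κ ^ r (h j) = 2 * κ ^ r j := by rw [← q1, pow_succ, hκ]; ring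
          have e7 : κ ^ n ≤ κ ^ r j := pow_le_pow_of_le_one hκ0.le hκ1 (hr j)
          have := hrow j
          simp only [a] at e3 ⊢
          linarith
        have e8 := mul_le_mul_of_nonneg_left e2 hA.le
        rw [if_neg (not_lt.2 hle)]
        simp only [F, if_pos hle] at e1 ⊢
        split_ifs with heq
        · have : δ / θ = u := by rw [hu, heq]
          rw [this] at e1 e8 ⊢
          linarith
        · have : 0 ≤ B ^ (N θ + 1) * (δ / θ) * κ ^ n := by positivity
          linarith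
      · push Not at hle
        rw [if_pos hle, if_neg hle.ne]
        have e1 : ∀ l ∈ (univ : Finset V), p j l * F θ l (s + 1) ≤ 2 * B ^ (N θ + 1) * u := by
          intro l _
          simp only [F]; split_ifs with hl
          · have e2 := hple l θ hl
            have e3 : p j l * (B ^ (N θ + 1) * (δ / θ) * a l) ≤
                θ / ρ j s * (B ^ (N θ + 1) * (δ / θ) * 2) :=
              mul_le_mul e2 (mul_le_mul_of_nonneg_left (ha2 l) hA.le)
                (mul_nonneg hA.le (ha0 l)) (by positivity)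
            refine e3.trans (le_of_eq ?_)
            rw [hu]; field_simp
          · simp only [mul_zero]; positivity
        have := sum_le_card_nsmul _ _ _ e1
        rw [card_univ, nsmul_eq_mul] at this
        have := hF0 θ hθ j s
        linarith
    have h3 : ∑ l, p j l * (∑ θ ∈ Θ', F θ l (s + 1) + G l (s + 1)) =
        ∑ θ ∈ Θ', ∑ l, p j l * F θ l (s + 1) + ∑ l, p j l * G l (s + 1) := by
      simp only [mul_add, sum_add_distrib, mul_sum]
      rw [sum_comm]
    have h4 := sum_le_sum h2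
    rw [sum_add_distrib, sum_sub_distrib] at h4
    have h5 : ∑ θ ∈ Θ', (if θ < ρ j s then 2 * n * B ^ (N θ + 1) * u else 0) ≤
        N0 * (2 * n * B ^ N (ρ j s) * u) := by
      have e1 : ∀ θ ∈ Θ', (if θ < ρ j s then 2 * n * B ^ (N θ + 1) * u else 0) ≤
          2 * n * B ^ N (ρ j s) * u := by
        intro θ hθ
        split_ifs with hlt
        · have : N θ + 1 ≤ N (ρ j s) := by
            apply card_lt_card
            refine ⟨fun t ht => mem_filter.2 ⟨(mem_filter.1 ht).1, (mem_filter.1 ht).2.trans hlt⟩,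
              fun hsub => ?_⟩
            exact lt_irrefl _ (mem_filter.1 (hsub (mem_filter.2 ⟨(mem_filter.1 hθ).1, hlt⟩))).2
          have := pow_le_pow_right₀ hB1 this
          gcongr
        · positivity
      have e2 := sum_le_card_nsmul _ _ _ e1
      rw [nsmul_eq_mul] at e2
      have e3 : (Θ'.card : ℝ) ≤ N0 := by exact_mod_cast (card_filter_le _ _).trans hN
      exact e2.trans (mul_le_mul_of_nonneg_right e3 (by positivity))
    rw [h3, mul_div_assoc, ← hu]
    rcases (hρ1 j s).lt_or_eq with hlt | heq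
    · have hmem : ρ j s ∈ Θ' := mem_filter.2 ⟨hΘ j s, hrel, hlt⟩
      rw [sum_ite_eq' Θ' (ρ j s), if_pos hmem] at h4
      have e1 : κ ^ n * B ^ (N (ρ j s) + 1) * u =
          (C1 + 2 * n + 2 * n * N0 + 1) * B ^ N (ρ j s) * u := by rw [← hBκ, pow_succ]; ring
      have e2 : 1 ≤ B ^ N (ρ j s) := one_le_pow₀ hB1
      have e3 : (C1 + 2 * n) * u ≤ (C1 + 2 * n) * B ^ N (ρ j s) * u :=
        mul_le_mul_of_nonneg_right (le_mul_of_one_le_right (by positivity) e2) hu0.le
      have e4 : 0 ≤ B ^ N (ρ j s) * u := by positivity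
      have e5 : 0 ≤ CC2 n N0 c C1 * δ := by positivity
      linarith
    · have e0 : u = δ := by rw [hu, heq, div_one]
      have e1 : 0 ≤ ∑ θ ∈ Θ', (if θ = ρ j s then κ ^ n * B ^ (N θ + 1) * u else 0) :=
        sum_nonneg fun θ _ => by split_ifs <;> positivity
      have e2 : B ^ N (ρ j s) ≤ B ^ (N0 + 1) := pow_le_pow_right₀ hB1 (by have := hNle (ρ j s); omega)
      have e3 : N0 * (2 * n * B ^ N (ρ j s) * u) ≤ N0 * (2 * n * B ^ (N0 + 1) * u) := by gcongr
      rw [CC2, ← hB]
      rw [e0] at h1 h4 h5 e1 e3 ⊢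
      linarith
  have main : ∀ k j s, E k j s ≤ k * (CC2 n N0 c C1 * δ) + (∑ θ ∈ Θ', F θ j s + G j s) := by
    intro k
    induction k with
    | zero =>
      intro j s
      have := hE0 j s
      have := hG0 j s
      have := sum_nonneg fun θ hθ => hF0 θ hθ j s
      simp only [Nat.cast_zero, zero_mul]; linarith
    | succ k ih =>
      intro j s
      have h0 : 0 ≤ (k : ℝ) * (CC2 n N0 c C1 * δ) := by positivity
      have h0' : 0 ≤ CC2 n N0 c C1 * δ := by positivity
      by_cases hrel : δ < ρ j s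
      · have h1 := hrec k j s hrel
        have h2 := hsup j s hrel
        have h3 : ∑ l, p j l * E k l (s + 1) ≤ ∑ l, (p j l * (k * (CC2 n N0 c C1 * δ)) +
            p j l * (∑ θ ∈ Θ', F θ l (s + 1) + G l (s + 1))) :=
          sum_le_sum fun l _ => by
            rw [← mul_add]; exact mul_le_mul_of_nonneg_left (ih l (s + 1)) (hp j l)
        rw [sum_add_distrib, ← sum_mul] at h3
        have h4 := mul_le_of_le_one_left h0 (hrow j)
        have := hG0 j s
        push_cast
        linarith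
      · have h1 : G j s = 2 := if_pos (not_lt.1 hrel)
        have := hE2 (k + 1) j s
        have := sum_nonneg fun θ hθ => hF0 θ hθ j s
        push_cast
        linarith
  have h1 := main k j s
  have h2 : ∑ θ ∈ Θ', F θ j s = 0 := sum_eq_zero fun θ hθ => by
    have := (mem_filter.1 hθ).2.2
    simp only [F]; rw [if_neg (by rw [hj]; linarith)]
  have h3 : G j s = 0 := if_neg (by rw [hj]; linarith)
  linarith

end Pool.Agent.MP_c71a08_an.H15
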