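import Pool.Agent.MP_c71a08_an.H15.Checks
import Pool.Agent.MP_c71a08_an.H15.Super

/-! If `|T^q|` is within `κ δ^(n+1)` of one, the powers of `T` lose at most `C δ` per step. -/

set_option linter.unusedSectionVars false

namespace Pool.Agent.MP_c71a08_an.H15

open Finset Function Matrix

/-- time offset -/
def OO (V : Type) [Fintype V] : ℕ := MM V * (qq V + Fintype.card V)

/-- one-edge constant -/
noncomputable def C0 (V : Type) [Fintype V] : ℝ :=
  4 * (5 + 4 * ((OO V + MM V : ℕ) : ℝ)) * qq V + 4 * MM V * qq V + 4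

/-- loss per step -/
noncomputable def CP (V : Type) [Fintype V] : ℝ :=
  CC2 (Fintype.card V) (Fintype.card V * MM V) (cc V) (Fintype.card V * C0 V + 1)

variable {V : Type} [Fintype V] [DecidableEq V]

theorem C0_nonneg : 0 ≤ C0 V := by unfold C0; positivity

theorem OO_mod (s : ℕ) : OO V + s % MM V ≡ s [MOD MM V] := by
  have h : OO V ≡ 0 [MOD MM V] := Nat.modEq_zero_iff_dvd.2 (Dvd.intro _ rfl)
  simpa using h.add (Nat.mod_modEq s (MM V))

theorem pow_mulVec_le (T : Matrix V V ℂ) (hT : ∀ j, ∑ l, ‖T j l‖ ≤ 1) (z : V → ℂ)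
    (hz : ∀ l, ‖z l‖ ≤ 1) (k : ℕ) (j : V) : ‖(T ^ k *ᵥ z) j‖ ≤ 1 := by
  induction k generalizing j with
  | zero => simpa using hz j
  | succ k ih =>
    rw [pow_succ', ← mulVec_mulVec, mulVec, dotProduct]
    refine (norm_sum_le _ _).trans (le_trans (sum_le_sum fun l _ => ?_) (hT j))
    rw [norm_mul]
    exact mul_le_of_le_one_right (norm_nonneg _) (ih l)

namespace Ctx

variable (C : Ctx V) {K : Set V}

/-- the quasi-periodic potential -/
noncomputable def y (s : ℕ) (j : V) : ℂ :=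
  C.yt (OO V + s % MM V) j * (C.Om (C.Lab C.i 0) (MM V))⁻¹ ^ (s / MM V)

theorem y_norm (s : ℕ) (j : V) : ‖C.y s j‖ = ‖C.Y (C.Lab j s)‖ := by
  rw [y, yt, C.Lab_congrM j (OO_mod s)]
  simp [cov_norm, Dat.Om_norm]

theorem y_le (s : ℕ) (j : V) : ‖C.y s j‖ ≤ 1 := by
  have := C.yt_le (OO V + s % MM V) j
  rw [y]; simpa [Dat.Om_norm] using this

theorem y_disc (hK : C.IsK C.δ C.i K) {j l : V} {s : ℕ} (hl : C.Lab l (s + 1) ∈ K) :
    ‖C.y s j - C.om j l * C.y (s + 1) l‖ ≤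
      ‖C.yt (OO V + s % MM V) j - C.om j l * C.yt (OO V + s % MM V + 1) l‖ +
        4 * MM V * qq V * C.δ := by
  have hM := MM_pos V
  have hδ := C.hδ
  have hr := Nat.mod_lt s hM
  have hs := Nat.div_add_mod s (MM V)
  set Λ := C.Om (C.Lab C.i 0) (MM V) with hΛ
  have hΛ1 : ‖Λ‖ = 1 := C.Om_norm _ _
  have hΛ0 : Λ ≠ 0 := C.Om_ne _ _
  rcases Nat.lt_or_ge (s % MM V + 1) (MM V) with hlt | hge
  · have e : s + 1 = (s % MM V + 1) + MM V * (s / MM V) := by omega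
    have e1 : (s + 1) % MM V = s % MM V + 1 := by
      rw [e, Nat.add_mul_mod_self_left, Nat.mod_eq_of_lt hlt]
    have e2 : (s + 1) / MM V = s / MM V := by
      rw [e, Nat.add_mul_div_left _ _ hM, Nat.div_eq_of_lt hlt, zero_add]
    rw [y, y, e1, e2, ← hΛ, ← mul_assoc, ← sub_mul, norm_mul, norm_pow, norm_inv, hΛ1,
      ← add_assoc]
    simp only [inv_one, one_pow, mul_one, le_add_iff_nonneg_right]
    positivity
  · have e : s + 1 = MM V * (s / MM V + 1) := by rw [mul_add]; omega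
    have e1 : (s + 1) % MM V = 0 := by rw [e, Nat.mul_mod_right]
    have e2 : (s + 1) / MM V = s / MM V + 1 := by rw [e, Nat.mul_div_cancel_left _ hM]
    have e3 : OO V + s % MM V + 1 = OO V + MM V := by omega
    have hL : C.Lab l (OO V) = C.Lab l (s + 1) := by
      have := C.Lab_congrM l (OO_mod (V := V) (s + 1))
      rwa [e1, add_zero] at this
    have h1 := C.yt_period (j := l) (s := OO V) (L := MM V) (C.iter_M (C.Lab_mem _ _) dvd_rfl)
    have h2 := C.glob hK hl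
    rw [← hL, ← hΛ] at h2
    rw [y, y, e1, e2, e3, add_zero, ← h1, ← hΛ]
    set A := C.yt (OO V + s % MM V) j
    set Bv := C.yt (OO V + MM V) l
    set o := C.Om (C.Lab l (OO V)) (MM V)
    have e4 : A * Λ⁻¹ ^ (s / MM V) - C.om j l * (Bv * o * Λ⁻¹ ^ (s / MM V + 1)) =
        ((A - C.om j l * Bv) - C.om j l * Bv * (o - Λ) * Λ⁻¹) * Λ⁻¹ ^ (s / MM V) := by
      rw [pow_succ]; field_simp; ring
    rw [e4, norm_mul, norm_pow, norm_inv, hΛ1]
    simp only [inv_one, one_pow, mul_one]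
    refine (norm_sub_le _ _).trans (add_le_add le_rfl ?_)
    rw [norm_mul, norm_mul, norm_mul, norm_inv, hΛ1, C.om_norm]
    simp only [inv_one, mul_one, one_mul]
    exact (mul_le_of_le_one_left (norm_nonneg _) (C.yt_le _ _)).trans h2

/-- admissible weights of walks from good periodic states -/
def RS (K : Set V) (j : V) (s : ℕ) : Set ℝ :=
  {a | a ≤ 0 ∨ ∃ v s0 k, v ∈ C.E ∧ C.Lab v s0 ∈ K ∧ s0 + k ≡ s [MOD MM V] ∧ C.W0 v j k a}

/-- relevance of a state -/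
noncomputable def rho (K : Set V) (j : V) (s : ℕ) : ℝ := sSup (C.RS K j s)

theorem RS_le {j : V} {s : ℕ} {a : ℝ} (h : a ∈ C.RS K j s) : a ≤ 1 := by
  rcases h with h | ⟨v, s0, k, -, -, -, h⟩
  · linarith
  · exact h.le_one

theorem RS_bdd (j : V) (s : ℕ) : BddAbove (C.RS K j s) := ⟨1, fun _ h => C.RS_le h⟩

theorem RS_ne (j : V) (s : ℕ) : (C.RS K j s).Nonempty := ⟨0, Or.inl le_rfl⟩

theorem rho_nonneg (j : V) (s : ℕ) : 0 ≤ C.rho K j s := le_csSup (C.RS_bdd j s) (Or.inl le_rfl)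

theorem rho_le (j : V) (s : ℕ) : C.rho K j s ≤ 1 := csSup_le (C.RS_ne j s) fun _ h => C.RS_le h

theorem rho_mod (j : V) (s : ℕ) : C.rho K j s = C.rho K j (s % MM V) := by
  unfold rho RS
  simp only [Nat.ModEq, Nat.mod_mod]

theorem rho_step (j l : V) (s : ℕ) : C.rho K j s * C.pt j l ≤ C.rho K l (s + 1) := by
  rcases (C.pt_nonneg j l).lt_or_eq with hp | hp
  · rw [← le_div_iff₀ hp]
    refine csSup_le (C.RS_ne j s) fun a ha => ?_
    rw [le_div_iff₀ hp]
    refine le_csSup (C.RS_bdd _ _) ?_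
    rcases ha with h | ⟨v, s0, k, h1, h2, h3, h4⟩
    · exact Or.inl (mul_nonpos_of_nonpos_of_nonneg h hp.le)
    · exact Or.inr ⟨v, s0, k + 1, h1, h2, by rw [← add_assoc]; exact h3.add_right 1,
        h4.trans ⟨_, Dat.W.edge j l⟩ hp.le⟩
  · rw [← hp, mul_zero]; exact C.rho_nonneg _ _

theorem rho_good {v : V} {s : ℕ} (hv : v ∈ C.E) (hg : C.Lab v s ∈ K) : C.rho K v s = 1 :=
  le_antisymm (C.rho_le _ _) (le_csSup (C.RS_bdd _ _)
    (Or.inr ⟨v, s, 0, hv, hg, Nat.ModEq.refl _, 1, Dat.W.nil v⟩))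

theorem rel (hK : C.IsK C.δ C.i K) {j : V} {s : ℕ} (h : C.δ < C.rho K j s) :
    ∃ v s0 k a, v ∈ C.E ∧ C.Lab v s0 ∈ K ∧ k ≤ C.cf ∧ s0 + k = OO V + s % MM V ∧ qq V ≤ s0 ∧
      C.W0 v j k a ∧ C.δ ≤ a ∧ C.rho K j s / 2 ≤ a := by
  have hδ := C.hδ
  obtain ⟨a, ha, hlt⟩ := exists_lt_of_lt_csSup (C.RS_ne (K := K) j s)
    (show max C.δ (C.rho K j s / 2) < C.rho K j s from max_lt h (by linarith))
  have h1 := (le_max_left _ _).trans_lt hlt
  have h2 := (le_max_right _ _).trans_lt hlt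
  rcases ha with ha | ⟨v, s0, k, q1, q2, q3, q4⟩
  · linarith
  obtain ⟨v', s0', k', r1, r2, r3, r4, r5⟩ := hK.short hδ.le h1.le k s0 v q1 q2 q4
  have hO : qq V + Fintype.card V ≤ OO V := Nat.le_mul_of_pos_left _ (MM_pos V)
  have hcf := C.cf_le
  refine ⟨v', OO V + s % MM V - k', k', a, r1, ?_, r3, by omega, by omega, r5, h1.le, h2.le⟩
  rw [C.Lab_congrM v' (s' := s0')]
  · exact r2
  · apply Nat.ModEq.add_right_cancel' k'
    rw [r4, show OO V + s % MM V - k' + k' = OO V + s % MM V by omega]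
    exact (OO_mod s).trans q3.symm

theorem rel_kill (hK : C.IsK C.δ C.i K) {j : V} {s : ℕ} (h : C.δ < C.rho K j s) :
    C.Lab j s ∈ K ∧ (1 - ∑ l, ‖C.T j l‖) * C.rho K j s ≤ C.δ ∧ cc V ≤ ‖C.T j (C.h j)‖ := by
  have hδ := C.hδ
  obtain ⟨v, s0, k, a, h1, h2, h3, h4, h5, h6, h7, h8⟩ := C.rel hK h
  have hg := hK.walk hδ.le h1 h2 h6 h7
  rw [h4, C.Lab_congrM j (OO_mod s)] at hg
  obtain ⟨s1, -, hW⟩ := hK.reach_good hδ.le C.hδ1 h1 h2
  obtain ⟨s2, hs2, hW2⟩ := (hW.trans h6 (hδ.le.trans h7)).shorten1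
  have hq : s2 < qq V := by
    have := qq_add V
    have := C.hn
    nlinarith
  have a1 := C.alive hW2 hq.le h7 le_rfl
  have a2 := C.alive_half hW2 hq.le h7 le_rfl
  obtain ⟨-, -, a3⟩ := C.vv_ineq hq j j
  have a4 := C.le_T j (C.h j) (by linarith)
  rw [C.pt_h, mul_one] at a4
  refine ⟨hg, ?_, a4⟩
  have a5 : (1 - ∑ l, ‖C.T j l‖) * C.rho K j s ≤ C.vv s2 j * (2 * a) :=
    mul_le_mul a3 (by linarith) (C.rho_nonneg _ _) (C.vv_nonneg _ _)
  have := C.hδ1
  nlinarith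

theorem rel_edge (hK : C.IsK C.δ C.i K) {j : V} {s : ℕ} (h : C.δ < C.rho K j s) (l : V) :
    ‖C.T j l‖ * ‖C.y s j - C.om j l * C.y (s + 1) l‖ * C.rho K j s ≤ C0 V * C.δ := by
  have hδ := C.hδ
  have hρ := C.rho_nonneg (K := K) j s
  have hρ1 := C.rho_le (K := K) j s
  set d := ‖C.y s j - C.om j l * C.y (s + 1) l‖ with hd
  have hd0 : 0 ≤ d := norm_nonneg _
  have h0 : ‖C.T j l‖ * d * C.rho K j s ≤ d * (C.rho K j s * C.pt j l) := by
    have := mul_le_mul_of_nonneg_right (C.T_le j l) (mul_nonneg hd0 hρ)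
    linarith
  refine h0.trans ?_
  have e1 : (0 : ℝ) ≤ 4 * (5 + 4 * ((OO V + MM V : ℕ) : ℝ)) * qq V * C.δ := by positivity
  have e2 : (0 : ℝ) ≤ 4 * MM V * qq V * C.δ := by positivity
  by_cases hbig : 2 * C.δ ≤ C.rho K j s * C.pt j l
  · obtain ⟨v, s0, k, a, h1, h2, h3, h4, h5, h6, h7, h8⟩ := C.rel hK h
    have hw : C.rho K j s * C.pt j l ≤ 2 * (a * C.pt j l) := by
      have := mul_le_mul_of_nonneg_right h8 (C.pt_nonneg j l)
      linarith
    have hr := Nat.mod_lt s (MM_pos V)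
    have a1 := C.check hK (l := l) (B := OO V + MM V) (w := a * C.pt j l) h1 h2 h5 (by omega) h6 h3
      (hδ.le.trans h7) (by linarith) le_rfl
    have hg := hK.walk hδ.le h1 h2 (h6.trans ⟨_, Dat.W.edge j l⟩ (C.pt_nonneg _ _))
      (by linarith)
    rw [← add_assoc, h4, C.Lab_congrM l ((OO_mod s).add_right 1)] at hg
    have a2 := C.y_disc hK (j := j) hg
    rw [h4] at a1
    rw [← hd] at a2
    set d' := ‖C.yt (OO V + s % MM V) j - C.om j l * C.yt (OO V + s % MM V + 1) l‖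
    have hd' : 0 ≤ d' := norm_nonneg _
    have b0 : 0 ≤ C.rho K j s * C.pt j l := mul_nonneg hρ (C.pt_nonneg _ _)
    have b1 : C.rho K j s * C.pt j l ≤ 1 := mul_le_one₀ hρ1 (C.pt_nonneg _ _) (C.pt_le _ _)
    have b2 := mul_le_mul_of_nonneg_right a2 b0
    have b3 := mul_le_mul_of_nonneg_left hw hd'
    have b4 := mul_le_of_le_one_right e2 b1
    unfold C0
    linarith
  · have b1 : d ≤ 2 := by
      have := norm_sub_le (C.y s j) (C.om j l * C.y (s + 1) l)
      rw [norm_mul, C.om_norm, one_mul] at this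
      have := C.y_le s j
      have := C.y_le (s + 1) l
      linarith
    have b2 := mul_le_mul b1 (not_le.1 hbig).le (mul_nonneg hρ (C.pt_nonneg _ _)) zero_le_two
    unfold C0
    linarith

theorem persist (hδ1 : C.δ < 1) (N : ℕ) : ∃ (j : V) (z : V → ℂ), (∀ l, ‖z l‖ ≤ 1) ∧
    7 / 10 - N * (CP V * C.δ) ≤ ‖((Matrix.of C.T) ^ N *ᵥ z) j‖ := by
  classical
  obtain ⟨K, hK⟩ := C.exists_K C.δ C.i
  obtain ⟨β, hβ⟩ := hK.ne
  have hβE := hK.mem_E hβ
  have hδ := C.hδ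
  have hex : ∀ j, ∃ t, C.h^[t] j ∈ C.E := fun j => ⟨_, C.iter_mem_E j le_rfl⟩
  have key := super (fun j l => ‖C.T j l‖) (C.rho K) C.h (fun j => Nat.find (hex j))
    ((univ ×ˢ range (MM V)).image fun js : V × ℕ => C.rho K js.1 js.2)
    (fun k j s => ‖C.y s j - ((Matrix.of C.T) ^ k *ᵥ C.y (s + k)) j‖) C.δ (cc V)
    (Fintype.card V * C0 V + 1) (Fintype.card V * MM V) (fun _ _ => norm_nonneg _) C.row hδ hδ1
    C.cc_pos C.cc_le (by have := C0_nonneg (V := V); positivity) C.rho_le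
    (fun j s => mem_image.2 ⟨(j, s % MM V), by simp [Nat.mod_lt _ (MM_pos V)],
      (C.rho_mod j s).symm⟩)
    (card_image_le.trans (by simp))
    (fun j s l => (mul_le_mul_of_nonneg_left (C.T_le j l) (C.rho_nonneg _ _)).trans
      (C.rho_step j l s))
    (fun j => (Nat.find_min' (hex j) (C.iter_mem_E j le_rfl)).trans C.cf_le)
    (fun j s h1 h2 => by
      obtain ⟨q1, -, q3⟩ := C.rel_kill hK h1
      refine ⟨?_, q3⟩
      have hj : j ∉ C.E := fun hj => h2.ne (C.rho_good hj q1)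
      symm
      rw [Nat.find_eq_iff]
      refine ⟨Nat.find_spec (hex (C.h j)), fun t ht => ?_⟩
      rcases t with _ | t
      · exact hj
      · exact Nat.find_min (hex (C.h j)) (by omega))
    (fun k j s => by
      have h1 := norm_sub_le (C.y s j) (((Matrix.of C.T) ^ k *ᵥ C.y (s + k)) j)
      have h2 := C.y_le s j
      have h3 := pow_mulVec_le (Matrix.of C.T) C.row _ (C.y_le (s + k)) k j
      linarith)
    (fun j s => by simp)
    (fun k j s h1 => by
      obtain ⟨-, q2, -⟩ := C.rel_kill hK h1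
      have hρ : 0 < C.rho K j s := hδ.trans h1
      set z := (Matrix.of C.T) ^ k *ᵥ C.y (s + 1 + k) with hz
      have e1 : ((Matrix.of C.T) ^ (k + 1) *ᵥ C.y (s + (k + 1))) j = ∑ l, C.T j l * z l := by
        rw [pow_succ', ← mulVec_mulVec, mulVec, dotProduct, show s + (k + 1) = s + 1 + k by ring]
        rfl
      have e2 : C.y s j - ∑ l, C.T j l * z l = ((1 - ∑ l, ‖C.T j l‖ : ℝ) : ℂ) * C.y s j +
          ∑ l, ((‖C.T j l‖ : ℂ) * (C.y s j - C.om j l * C.y (s + 1) l) +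
            C.T j l * (C.y (s + 1) l - z l)) := by
        have : ∀ l, (‖C.T j l‖ : ℂ) * (C.y s j - C.om j l * C.y (s + 1) l) +
            C.T j l * (C.y (s + 1) l - z l) = (‖C.T j l‖ : ℂ) * C.y s j - C.T j l * z l := by
          intro l
          rw [mul_sub, ← mul_assoc, ← C.T_eq]; ring
        simp only [this, sum_sub_distrib, ← sum_mul]
        push_cast
        ring
      simp only [e1, e2]
      have e3 : ‖((1 - ∑ l, ‖C.T j l‖ : ℝ) : ℂ) * C.y s j‖ ≤ C.δ / C.rho K j s := by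
        rw [norm_mul, Complex.norm_real, Real.norm_of_nonneg (sub_nonneg.2 (C.row j)),
          le_div_iff₀ hρ]
        refine le_trans (mul_le_mul_of_nonneg_right ?_ hρ.le) q2
        exact mul_le_of_le_one_right (sub_nonneg.2 (C.row j)) (C.y_le _ _)
      have e4 : ∀ l ∈ (univ : Finset V),
          ‖(‖C.T j l‖ : ℂ) * (C.y s j - C.om j l * C.y (s + 1) l) +
            C.T j l * (C.y (s + 1) l - z l)‖ ≤
          C0 V * C.δ / C.rho K j s + ‖C.T j l‖ * ‖C.y (s + 1) l - z l‖ := by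
        intro l _
        refine (norm_add_le _ _).trans (add_le_add ?_ (norm_mul _ _).le)
        rw [norm_mul, Complex.norm_real, norm_norm, le_div_iff₀ hρ]
        exact C.rel_edge hK h1 l
      have e5 := (norm_sum_le _ _).trans (sum_le_sum e4)
      refine (norm_add_le _ _).trans ((add_le_add e3 e5).trans (le_of_eq ?_))
      rw [sum_add_distrib, sum_const, card_univ, nsmul_eq_mul]
      ring)
    N β 0 (C.rho_good hβE (by rwa [C.Lab_zero hβE]))
  refine ⟨β, C.y (0 + N), C.y_le _, ?_⟩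
  obtain ⟨u, σ, -, hσ, hL, hW, hy⟩ := C.yt_def (C.hasDef hK hβ)
  have h1 := C.alive_half hW hσ C.hδ1 (by rw [mul_one])
  have h2 : ‖C.y 0 β‖ = ‖C.x σ u‖ := by
    rw [y_norm, C.Lab_zero hβE, ← hy, yt, norm_mul, cov_norm, one_mul, hL]
  have h3 : 7 / 10 ≤ ‖C.x σ u‖ := by
    have : C.vv σ u = 1 - ‖C.x σ u‖ ^ 2 := rfl
    by_contra hlt
    have := norm_nonneg (C.x σ u)
    nlinarith
  have h4 := norm_sub_norm_le (C.y 0 β) (((Matrix.of C.T) ^ N *ᵥ C.y (0 + N)) β)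
  unfold CP
  linarith

end Ctx

end Pool.Agent.MP_c71a08_an.H15
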