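import Pool.Agent.MP_c71a08_an.H15.Labels

/-! Tracking the iterates `T^(q-s) x` along heavy walks. -/

set_option linter.unusedSectionVars false

namespace Pool.Agent.MP_c71a08_an.H15

open Finset Function

/-- the critical exponent -/
def qq (V : Type) [Fintype V] : ℕ := Fintype.card V ^ 2 - Fintype.card V + 1

theorem qq_add (V : Type) [Fintype V] :
    qq V + Fintype.card V = Fintype.card V * Fintype.card V + 1 := by
  unfold qq
  have : Fintype.card V ≤ Fintype.card V ^ 2 := Nat.le_self_pow two_ne_zero _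
  rw [← sq]; omega

/-- lower bound for the weight of a selected edge -/
noncomputable def cc (V : Type) [Fintype V] : ℝ := 1 / (2 * Fintype.card V)

theorem var_id {V : Type} [Fintype V] (p : V → ℝ) (z : V → ℂ) (a : ℂ)
    (ha : a = ∑ l, (p l : ℂ) * z l) :
    ∑ l, p l * ((1 - ‖z l‖ ^ 2) + ‖a - z l‖ ^ 2) + (1 - ∑ l, p l) * (1 + ‖a‖ ^ 2)
      = 1 - ‖a‖ ^ 2 := by
  have hr : a.re = ∑ l, p l * (z l).re := by rw [ha, Complex.re_sum]; simp
  have hi : a.im = ∑ l, p l * (z l).im := by rw [ha, Complex.im_sum]; simp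
  have e : ∀ l, p l * ((1 - ‖z l‖ ^ 2) + ‖a - z l‖ ^ 2) =
      p l * (1 + a.re ^ 2 + a.im ^ 2) - 2 * a.re * (p l * (z l).re)
        - 2 * a.im * (p l * (z l).im) := by
    intro l
    rw [Complex.sq_norm, Complex.sq_norm, Complex.normSq_apply, Complex.normSq_apply]
    simp only [Complex.sub_re, Complex.sub_im]; ring
  simp only [e, sum_sub_distrib, ← sum_mul, ← mul_sum]
  rw [← hr, ← hi, Complex.sq_norm, Complex.normSq_apply]; ring

theorem inv_pow_cancel {a : ℂ} (ha : a ≠ 0) (s t : ℕ) :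
    a⁻¹ ^ (s + t + 1) * a ^ t = a⁻¹ ^ (s + 1) := by
  rw [show s + t + 1 = (s + 1) + t by ring, pow_add, mul_assoc, ← mul_pow, inv_mul_cancel₀ ha,
    one_pow, mul_one]

variable {V : Type} [Fintype V] [DecidableEq V]

/-- All analytic data of the argument. -/
structure Ctx (V : Type) [Fintype V] extends Dat V where
  T : V → V → ℂ
  x : ℕ → V → ℂ
  δ : ℝ
  i : V
  hn : 2 ≤ Fintype.card V
  hδ : 0 < δ
  hδ1 : δ ≤ 1
  T_eq : ∀ j l, T j l = (‖T j l‖ : ℂ) * om j l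
  row : ∀ j, ∑ l, ‖T j l‖ ≤ 1
  T_le : ∀ j l, ‖T j l‖ ≤ pt j l
  le_T : ∀ j l, 1 / 2 ≤ ∑ l, ‖T j l‖ → cc V * pt j l ≤ ‖T j l‖
  x_rec : ∀ s < qq V, ∀ j, x s j = ∑ l, T j l * x (s + 1) l
  x_le : ∀ s j, ‖x s j‖ ≤ 1
  eps : 1 - ‖x 0 i‖ ^ 2 ≤ cc V ^ qq V / 2 * δ ^ (Fintype.card V + 1)

namespace Ctx

variable (C : Ctx V)

include C in
theorem cc_pos : 0 < cc V := by
  have : (0 : ℝ) < Fintype.card V := by have := C.hn; positivity
  unfold cc; positivity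

include C in
theorem cc_le : cc V ≤ 1 := by
  have : (2 : ℝ) ≤ Fintype.card V := by exact_mod_cast C.hn
  unfold cc; rw [div_le_one (by linarith)]; linarith

/-- the loss -/
noncomputable def vv (s : ℕ) (j : V) : ℝ := 1 - ‖C.x s j‖ ^ 2

theorem vv_nonneg (s : ℕ) (j : V) : 0 ≤ C.vv s j := by
  unfold vv
  have := C.x_le s j
  have := norm_nonneg (C.x s j)
  nlinarith

theorem vv_ineq {s : ℕ} (hs : s < qq V) (j l : V) :
    ‖C.T j l‖ * C.vv (s + 1) l ≤ C.vv s j ∧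
      ‖C.T j l‖ * ‖C.x s j - C.om j l * C.x (s + 1) l‖ ^ 2 ≤ C.vv s j ∧
      1 - ∑ l, ‖C.T j l‖ ≤ C.vv s j := by
  have h := var_id (fun l => ‖C.T j l‖) (fun l => C.om j l * C.x (s + 1) l) (C.x s j) (by
    rw [C.x_rec s hs j]
    refine sum_congr rfl fun l _ => ?_
    rw [← mul_assoc, ← C.T_eq])
  have hz : ∀ l, 1 - ‖C.om j l * C.x (s + 1) l‖ ^ 2 = C.vv (s + 1) l := by
    intro l; rw [norm_mul, C.om_norm, one_mul]; rfl
  simp only [hz] at h
  have h1 : ‖C.T j l‖ * (C.vv (s + 1) l + ‖C.x s j - C.om j l * C.x (s + 1) l‖ ^ 2) ≤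
      ∑ l, ‖C.T j l‖ * (C.vv (s + 1) l + ‖C.x s j - C.om j l * C.x (s + 1) l‖ ^ 2) :=
    single_le_sum (f := fun l => ‖C.T j l‖ * (C.vv (s + 1) l +
      ‖C.x s j - C.om j l * C.x (s + 1) l‖ ^ 2))
      (fun l _ => mul_nonneg (norm_nonneg _) (add_nonneg (C.vv_nonneg _ _) (sq_nonneg _)))
      (mem_univ l)
  have h2 := C.row j
  have h3 := mul_nonneg (norm_nonneg (C.T j l)) (C.vv_nonneg (s + 1) l)
  have h4 := mul_nonneg (norm_nonneg (C.T j l))
    (sq_nonneg ‖C.x s j - C.om j l * C.x (s + 1) l‖)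
  have h5 := mul_nonneg (sub_nonneg.2 h2) (sq_nonneg ‖C.x s j‖)
  have h6 : C.vv s j = 1 - ‖C.x s j‖ ^ 2 := rfl
  refine ⟨?_, ?_, ?_⟩ <;> nlinarith

theorem half_of {s : ℕ} (hs : s ≤ qq V) {j : V} {a : ℝ} (ha : C.δ ^ Fintype.card V ≤ a)
    (h : C.vv s j * cc V ^ s * a ≤ C.vv 0 C.i) : C.vv s j ≤ 1 / 2 := by
  have h1 : cc V ^ qq V ≤ cc V ^ s := pow_le_pow_of_le_one C.cc_pos.le C.cc_le hs
  have h2 : 0 < cc V ^ qq V := pow_pos C.cc_pos _
  have h3 : 0 < C.δ ^ Fintype.card V := pow_pos C.hδ _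
  have h4 : C.δ ^ (Fintype.card V + 1) ≤ C.δ ^ Fintype.card V :=
    pow_le_pow_of_le_one C.hδ.le C.hδ1 (by omega)
  have h5 : C.vv 0 C.i ≤ cc V ^ qq V / 2 * C.δ ^ Fintype.card V :=
    C.eps.trans (mul_le_mul_of_nonneg_left h4 (by positivity))
  have h6 : C.vv s j * (cc V ^ qq V * C.δ ^ Fintype.card V) ≤ C.vv s j * cc V ^ s * a := by
    rw [mul_assoc]
    exact mul_le_mul_of_nonneg_left (mul_le_mul h1 ha h3.le (h2.le.trans h1)) (C.vv_nonneg _ _)
  have h7 : C.vv s j * (cc V ^ qq V * C.δ ^ Fintype.card V) ≤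
      1 / 2 * (cc V ^ qq V * C.δ ^ Fintype.card V) := by linarith
  exact le_of_mul_le_mul_right h7 (by positivity)

theorem alive_fun (f : ℕ → V) (h0 : f 0 = C.i) : ∀ s ≤ qq V,
    C.δ ^ Fintype.card V ≤ C.wt f s → C.vv s (f s) * cc V ^ s * C.wt f s ≤ C.vv 0 C.i := by
  intro s
  induction s with
  | zero => intro _ _; simp [Dat.wt, h0]
  | succ s ih =>
    intro hs ha
    have ha' := ha.trans (C.wt_anti f (Nat.le_succ s))
    have h1 := ih (by omega) ha'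
    have h2 := C.half_of (by omega) ha' h1
    obtain ⟨h3, -, h4⟩ := C.vv_ineq (s := s) (by omega) (f s) (f (s + 1))
    have h5 := C.le_T (f s) (f (s + 1)) (by linarith)
    have h6 : C.vv (s + 1) (f (s + 1)) * (cc V * C.pt (f s) (f (s + 1))) ≤ C.vv s (f s) := by
      have := mul_le_mul_of_nonneg_left h5 (C.vv_nonneg (s + 1) (f (s + 1)))
      linarith
    have h7 : 0 ≤ cc V ^ s * C.wt f s := mul_nonneg (pow_nonneg C.cc_pos.le _) (C.wt_nonneg _ _)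
    have := mul_le_mul_of_nonneg_right h6 h7
    rw [Dat.wt_succ, pow_succ]
    linarith

theorem alive' {j : V} {s : ℕ} {a : ℝ} (hW : C.W0 C.i j s a) (hs : s ≤ qq V)
    (ha : C.δ ^ Fintype.card V ≤ a) : C.vv s j * cc V ^ s * a ≤ C.vv 0 C.i := by
  obtain ⟨φ, f, h0, rfl, h2, -⟩ := hW
  refine le_trans ?_ (C.alive_fun f h0 s hs (ha.trans h2))
  exact mul_le_mul_of_nonneg_left h2 (mul_nonneg (C.vv_nonneg _ _) (pow_nonneg C.cc_pos.le _))

theorem pow_le_of {w a : ℝ} (hw : C.δ ≤ w) (ha : C.δ ^ (Fintype.card V - 1) * w ≤ a) :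
    C.δ ^ Fintype.card V ≤ a := by
  refine le_trans ?_ ha
  have := C.hn
  conv_lhs => rw [show Fintype.card V = (Fintype.card V - 1) + 1 by omega, pow_succ]
  exact mul_le_mul_of_nonneg_left hw (pow_nonneg C.hδ.le _)

theorem cancel {e w a : ℝ} {s : ℕ} (he : 0 ≤ e) (hs : s ≤ qq V) (hw : C.δ ≤ w)
    (ha : C.δ ^ (Fintype.card V - 1) * w ≤ a) (h : e * cc V ^ s * a ≤ C.vv 0 C.i) :
    e * w ≤ C.δ ^ 2 / 2 := by
  have h1 : cc V ^ qq V ≤ cc V ^ s := pow_le_pow_of_le_one C.cc_pos.le C.cc_le hs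
  have h2 : 0 < cc V ^ qq V := pow_pos C.cc_pos _
  have h3 : 0 < C.δ ^ (Fintype.card V - 1) := pow_pos C.hδ _
  have hw0 : 0 < w := C.hδ.trans_le hw
  have h5 : C.vv 0 C.i ≤ cc V ^ qq V / 2 * (C.δ ^ (Fintype.card V - 1) * C.δ ^ 2) := by
    rw [← pow_add, show Fintype.card V - 1 + 2 = Fintype.card V + 1 by have := C.hn; omega]
    exact C.eps
  have h6 : e * (cc V ^ qq V * (C.δ ^ (Fintype.card V - 1) * w)) ≤ e * cc V ^ s * a := by
    rw [mul_assoc]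
    exact mul_le_mul_of_nonneg_left (mul_le_mul h1 ha (by positivity) (h2.le.trans h1)) he
  have h7 : e * w * (cc V ^ qq V * C.δ ^ (Fintype.card V - 1)) ≤
      C.δ ^ 2 / 2 * (cc V ^ qq V * C.δ ^ (Fintype.card V - 1)) := by linarith
  exact le_of_mul_le_mul_right h7 (by positivity)

theorem alive {j : V} {s : ℕ} {a w : ℝ} (hW : C.W0 C.i j s a) (hs : s ≤ qq V) (hw : C.δ ≤ w)
    (ha : C.δ ^ (Fintype.card V - 1) * w ≤ a) : C.vv s j * w ≤ C.δ ^ 2 / 2 :=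
  C.cancel (C.vv_nonneg _ _) hs hw ha (C.alive' hW hs (C.pow_le_of hw ha))

theorem alive_half {j : V} {s : ℕ} {a w : ℝ} (hW : C.W0 C.i j s a) (hs : s ≤ qq V)
    (hw : C.δ ≤ w) (ha : C.δ ^ (Fintype.card V - 1) * w ≤ a) : C.vv s j ≤ 1 / 2 :=
  C.half_of hs (C.pow_le_of hw ha) (C.alive' hW hs (C.pow_le_of hw ha))

theorem step {j l : V} {s : ℕ} {a w : ℝ} (hW : C.W0 C.i j s a) (hs : s < qq V) (ha0 : 0 ≤ a)
    (hw : C.δ ≤ w) (hw1 : w ≤ 1) (ha : C.δ ^ (Fintype.card V - 1) * w ≤ a * C.pt j l) :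
    ‖C.x s j - C.om j l * C.x (s + 1) l‖ * w ≤ C.δ := by
  have ha' : C.δ ^ (Fintype.card V - 1) * w ≤ a :=
    ha.trans (mul_le_of_le_one_right ha0 (C.pt_le _ _))
  have h1 := C.alive' hW hs.le (C.pow_le_of hw ha')
  have h2 := C.alive_half hW hs.le hw ha'
  obtain ⟨-, h3, h4⟩ := C.vv_ineq hs j l
  have h5 := C.le_T j l (by linarith)
  set e := ‖C.x s j - C.om j l * C.x (s + 1) l‖
  have he : 0 ≤ e := norm_nonneg _
  have h6 : e ^ 2 * (cc V * C.pt j l) ≤ C.vv s j := by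
    have := mul_le_mul_of_nonneg_left h5 (sq_nonneg e)
    linarith
  have h7 : 0 ≤ cc V ^ s * a := mul_nonneg (pow_nonneg C.cc_pos.le _) ha0
  have h8 : e ^ 2 * cc V ^ (s + 1) * (a * C.pt j l) ≤ C.vv 0 C.i := by
    have := mul_le_mul_of_nonneg_right h6 h7
    rw [pow_succ (cc V)]
    linarith
  have h9 := C.cancel (sq_nonneg e) hs hw ha h8
  have hw0 : 0 < w := C.hδ.trans_le hw
  have h10 : (e * w) ^ 2 ≤ C.δ ^ 2 := by
    have : e ^ 2 * w * w ≤ e ^ 2 * w := mul_le_of_le_one_right (by positivity) hw1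
    have := sq_nonneg C.δ
    nlinarith
  exact (pow_le_pow_iff_left₀ (by positivity) C.hδ.le two_ne_zero).1 h10

theorem track {j l : V} {s k : ℕ} {a a' w : ℝ} {φ : ℂ} (hW : C.W0 C.i j s a)
    (hW' : C.W j l k a' φ) (hs : s + k ≤ qq V) (ha0 : 0 ≤ a) (hw : C.δ ≤ w) (hw1 : w ≤ 1)
    (ha : C.δ ^ (Fintype.card V - 1) * w ≤ a * a') :
    ‖C.x s j - φ * C.x (s + k) l‖ * w ≤ qq V * C.δ := by
  obtain ⟨f, rfl, rfl, h2, rfl⟩ := hW'
  have hw0 : 0 < w := C.hδ.trans_le hw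
  have key : ∀ t ≤ k, ‖C.x s (f 0) - C.ph f t * C.x (s + t) (f t)‖ * w ≤ t * C.δ := by
    intro t
    induction t with
    | zero => intro _; simp [Dat.ph]
    | succ t ih =>
      intro ht
      have h1 := ih (by omega)
      have h3 : C.W0 C.i (f t) (s + t) (a * C.wt f t) :=
        hW.trans (Dat.W0.of_fun f t) (C.wt_nonneg _ _)
      have h4 := C.step (l := f (t + 1)) h3 (by omega) (mul_nonneg ha0 (C.wt_nonneg _ _)) hw hw1
        (by
          rw [mul_assoc, ← Dat.wt_succ]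
          exact ha.trans (mul_le_mul_of_nonneg_left (h2.trans (C.wt_anti f ht)) ha0))
      have h5 : C.x s (f 0) - C.ph f (t + 1) * C.x (s + (t + 1)) (f (t + 1)) =
          (C.x s (f 0) - C.ph f t * C.x (s + t) (f t)) + C.ph f t *
            (C.x (s + t) (f t) - C.om (f t) (f (t + 1)) * C.x (s + t + 1) (f (t + 1))) := by
        rw [Dat.ph_succ, ← add_assoc]; ring
      rw [h5]
      have h6 := norm_add_le (C.x s (f 0) - C.ph f t * C.x (s + t) (f t)) (C.ph f t *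
            (C.x (s + t) (f t) - C.om (f t) (f (t + 1)) * C.x (s + t + 1) (f (t + 1))))
      rw [norm_mul, Dat.ph_norm, one_mul] at h6
      have := mul_le_mul_of_nonneg_right h6 hw0.le
      push_cast
      linarith
  refine (key k le_rfl).trans (mul_le_mul_of_nonneg_right ?_ C.hδ.le)
  exact_mod_cast (by omega : k ≤ qq V)

/-- Comparison of the phases of two cycles joined by a walk. -/
theorem cmp {v u : V} {s k L : ℕ} {a a' w : ℝ} (hv : C.h^[L] v = v) (hu : C.h^[L] u = u)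
    (hW : C.W0 C.i v s a) (hW' : C.W0 v u k a') (hs : s + L + k ≤ qq V) (ha0 : 0 ≤ a)
    (ha0' : 0 ≤ a') (hw : C.δ ≤ w) (hw1 : w ≤ 1)
    (ha : C.δ ^ (Fintype.card V - 1) * w ≤ a * a') :
    ‖C.Om v L - C.Om u L‖ * w ≤ 4 * qq V * C.δ := by
  have hw0 : 0 < w := C.hδ.trans_le hw
  obtain ⟨φ, hφ⟩ := hW'
  have h1 := C.W_h v L
  rw [hv] at h1
  have h2 := C.W_h u L
  rw [hu] at h2
  have h3 := h1.trans hφ ha0'
  have h4 := hφ.trans h2 zero_le_one
  rw [one_mul] at h3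
  rw [mul_one, add_comm] at h4
  have t1 := C.track hW h3 (by omega) ha0 hw hw1 ha
  have t2 := C.track hW h4 (by omega) ha0 hw hw1 ha
  have h5 := C.alive_half (hW.trans ⟨_, h3⟩ ha0') (by omega) hw ha
  set z := C.x (s + (L + k)) u
  have hz : 1 / 2 ≤ ‖z‖ := by
    have : C.vv (s + (L + k)) u = 1 - ‖z‖ ^ 2 := rfl
    by_contra hlt
    have := norm_nonneg z
    nlinarith
  have h6 : (C.Om v L - C.Om u L) * φ * z =
      (C.x s v - φ * C.Om u L * z) - (C.x s v - C.Om v L * φ * z) := by ring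
  have h7 := norm_sub_le (C.x s v - φ * C.Om u L * z) (C.x s v - C.Om v L * φ * z)
  rw [← h6, norm_mul, norm_mul, hφ.norm, mul_one] at h7
  have h8 := mul_le_mul_of_nonneg_right h7 hw0.le
  have h9 : 0 ≤ ‖C.Om v L - C.Om u L‖ * w := by positivity
  nlinarith

/-- a label whose value is read off from the iterates -/
def HasDef (β : V) : Prop :=
  ∃ uσ : V × ℕ, uσ.1 ∈ C.E ∧ uσ.2 ≤ qq V ∧ C.Lab uσ.1 uσ.2 = β ∧
    C.W0 C.i uσ.1 uσ.2 (C.δ ^ (Fintype.card V - 1))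

/-- covariant phase factor -/
noncomputable def cov (j : V) (s : ℕ) : ℂ :=
  C.Om j (MM V + (MM V - 1) * s) * (C.Om (C.Lab j s) (MM V))⁻¹ ^ (s + 1)

open Classical in
/-- value of a label -/
noncomputable def Y (β : V) : ℂ :=
  if h : C.HasDef β then C.x h.choose.2 h.choose.1 / C.cov h.choose.1 h.choose.2 else 0

/-- the covariant space-time potential -/
noncomputable def yt (s : ℕ) (j : V) : ℂ := C.cov j s * C.Y (C.Lab j s)

theorem cov_norm (j : V) (s : ℕ) : ‖C.cov j s‖ = 1 := by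
  simp [cov, Dat.Om_norm]

theorem yt_le (s : ℕ) (j : V) : ‖C.yt s j‖ ≤ 1 := by
  rw [yt, norm_mul, cov_norm, one_mul, Y]
  split_ifs
  · rw [norm_div, cov_norm, div_one]; exact C.x_le _ _
  · simp

theorem cov_iter (j : V) (s t : ℕ) : C.cov j s = C.Om j t * C.cov (C.h^[t] j) (s + t) := by
  unfold cov
  rw [← mul_assoc, ← Dat.Om_add, Dat.Lab_iter]
  have e : t + (MM V + (MM V - 1) * (s + t)) = (MM V + (MM V - 1) * s) + t * MM V := by
    have := Dat.MM_eq (V := V) t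
    rw [mul_add, mul_comm t]; omega
  rw [e, C.Om_add j (MM V + (MM V - 1) * s)]
  have h1 : C.h^[MM V + (MM V - 1) * s] j = C.Lab j s := rfl
  rw [h1, C.Om_mul (C.iter_M (C.Lab_mem j s) dvd_rfl), mul_assoc,
    mul_comm (C.Om (C.Lab j s) (MM V) ^ t), inv_pow_cancel (C.Om_ne (C.Lab j s) (MM V))]

theorem yt_iter (j : V) (s t : ℕ) : C.yt s j = C.Om j t * C.yt (s + t) (C.h^[t] j) := by
  unfold yt
  rw [C.cov_iter j s t, Dat.Lab_iter, mul_assoc]

theorem yt_period {j : V} {s L : ℕ} (hL : C.h^[L] (C.Lab j s) = C.Lab j s) :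
    C.yt (s + L) j * C.Om (C.Lab j s) L = C.yt s j := by
  unfold yt cov
  rw [C.Lab_period hL]
  have e : MM V + (MM V - 1) * (s + L) = (MM V + (MM V - 1) * s) + (MM V - 1) * L := by ring
  rw [e, Dat.Om_add]
  have h1 : C.h^[MM V + (MM V - 1) * s] j = C.Lab j s := rfl
  rw [h1]
  have h2 := C.Om_add (C.Lab j s) ((MM V - 1) * L) L
  have h3 : C.h^[(MM V - 1) * L] (C.Lab j s) = C.Lab j s := by
    rw [mul_comm, iterate_mul]; exact iterate_fixed hL _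
  rw [h3, Dat.MM_eq, mul_comm (MM V) L, C.Om_mul (C.iter_M (C.Lab_mem j s) dvd_rfl)] at h2
  rw [← inv_pow_cancel (C.Om_ne (C.Lab j s) (MM V)) s L, h2]; ring

theorem yt_def {β : V} (h : C.HasDef β) : ∃ u σ, u ∈ C.E ∧ σ ≤ qq V ∧ C.Lab u σ = β ∧
    C.W0 C.i u σ (C.δ ^ (Fintype.card V - 1)) ∧ C.yt σ u = C.x σ u := by
  obtain ⟨h1, h2, h3, h4⟩ := h.choose_spec
  refine ⟨_, _, h1, h2, h3, h4, ?_⟩
  have hc : C.cov h.choose.1 h.choose.2 ≠ 0 := by
    intro h0; have := C.cov_norm h.choose.1 h.choose.2; rw [h0] at this; simp at this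
  rw [yt, h3, Y, dif_pos h]
  field_simp

theorem val {j : V} {s : ℕ} {a w : ℝ} (hd : C.HasDef (C.Lab j s)) (hW : C.W0 C.i j s a)
    (hs : s + C.cf ≤ qq V) (hw : C.δ ≤ w) (hw1 : w ≤ 1)
    (ha : C.δ ^ (Fintype.card V - 1) * w ≤ a) :
    ‖C.x s j - C.yt s j‖ * w ≤ 2 * qq V * C.δ := by
  have hw0 : 0 < w := C.hδ.trans_le hw
  have hd0 : 0 ≤ C.δ ^ (Fintype.card V - 1) := pow_nonneg C.hδ.le _
  obtain ⟨u, σ, hu, hσ, hL, hWu, hy⟩ := C.yt_def hd
  obtain ⟨t1, ht1⟩ := Nat.exists_eq_add_of_le (show s ≤ max σ (s + C.cf) by omega)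
  obtain ⟨t2, ht2⟩ := Nat.exists_eq_add_of_le (le_max_left σ (s + C.cf))
  have hz : C.h^[t2] u = C.h^[t1] j := by
    apply C.Lab_inj (C.E_iter hu _) (C.iter_mem_E j (by omega)) (s := max σ (s + C.cf))
    conv_lhs => rw [ht2]
    conv_rhs => rw [ht1]
    rw [Dat.Lab_iter, Dat.Lab_iter, hL]
  have a1 := C.track hW (C.W_h j t1) (by omega) ((mul_nonneg hd0 hw0.le).trans ha) hw hw1
    (by rwa [mul_one])
  have a2 := C.track hWu (C.W_h u t2) (by omega) hd0 hw hw1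
    (by rw [mul_one]; exact mul_le_of_le_one_right hd0 hw1)
  rw [← hy, C.yt_iter u σ t2, ← mul_sub, norm_mul, Dat.Om_norm, one_mul, hz, ← ht2] at a2
  rw [← ht1] at a1
  rw [C.yt_iter j s t1, ← ht1]
  set τ := max σ (s + C.cf)
  have e : C.x s j - C.Om j t1 * C.yt τ (C.h^[t1] j) = (C.x s j - C.Om j t1 * C.x τ (C.h^[t1] j))
      - C.Om j t1 * (C.yt τ (C.h^[t1] j) - C.x τ (C.h^[t1] j)) := by ring
  have h7 := norm_sub_le (C.x s j - C.Om j t1 * C.x τ (C.h^[t1] j))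
    (C.Om j t1 * (C.yt τ (C.h^[t1] j) - C.x τ (C.h^[t1] j)))
  rw [← e, norm_mul, Dat.Om_norm, one_mul] at h7
  have h8 := mul_le_mul_of_nonneg_right h7 hw0.le
  linarith

theorem core {j z : V} {s k : ℕ} {a a' w : ℝ} {φ : ℂ} (hd : C.HasDef (C.Lab j s))
    (hd' : C.HasDef (C.Lab z (s + k))) (hW : C.W0 C.i j s a) (hW' : C.W j z k a' φ)
    (hs : s + k + C.cf ≤ qq V) (ha0 : 0 ≤ a) (ha0' : 0 ≤ a') (hw : C.δ ≤ w) (hw1 : w ≤ 1)
    (ha : C.δ ^ (Fintype.card V - 1) * w ≤ a * a') :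
    ‖C.yt s j - φ * C.yt (s + k) z‖ * w ≤ 5 * qq V * C.δ := by
  have hw0 : 0 < w := C.hδ.trans_le hw
  have a1 := C.val hd hW (by omega) hw hw1 (ha.trans (mul_le_of_le_one_right ha0 hW'.le_one))
  have a2 := C.val hd' (hW.trans ⟨_, hW'⟩ ha0') hs hw hw1 ha
  have a3 := C.track hW hW' (by omega) ha0 hw hw1 ha
  have e : C.yt s j - φ * C.yt (s + k) z = (C.x s j - φ * C.x (s + k) z) - (C.x s j - C.yt s j)
      + φ * (C.x (s + k) z - C.yt (s + k) z) := by ring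
  have h1 := norm_add_le ((C.x s j - φ * C.x (s + k) z) - (C.x s j - C.yt s j))
    (φ * (C.x (s + k) z - C.yt (s + k) z))
  have h2 := norm_sub_le (C.x s j - φ * C.x (s + k) z) (C.x s j - C.yt s j)
  rw [← e, norm_mul, hW'.norm, one_mul] at h1
  have h3 := mul_le_mul_of_nonneg_right (h1.trans (add_le_add h2 le_rfl)) hw0.le
  linarith

theorem transfer {j z : V} {s s' L : ℕ} {φ : ℂ} (hφ : ‖φ‖ = 1)
    (hL : C.h^[L] (C.Lab j s) = C.Lab j s) (hL' : C.h^[L] (C.Lab z s') = C.Lab z s') (N : ℕ) :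
    ‖C.yt (s + N * L) j - φ * C.yt (s' + N * L) z‖ ≤ ‖C.yt s j - φ * C.yt s' z‖ +
      N * ‖C.Om (C.Lab j s) L - C.Om (C.Lab z s') L‖ := by
  have hlab : ∀ (j : V) (s : ℕ), C.h^[L] (C.Lab j s) = C.Lab j s → ∀ N : ℕ,
      C.Lab j (s + N * L) = C.Lab j s := by
    intro j s h N
    apply C.Lab_period
    rw [mul_comm, iterate_mul]; exact iterate_fixed h _
  induction N with
  | zero => simp
  | succ N ih =>
    have h1 := C.yt_period (j := j) (s := s + N * L) (L := L) (by rw [hlab j s hL]; exact hL)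
    have h2 := C.yt_period (j := z) (s := s' + N * L) (L := L) (by rw [hlab z s' hL']; exact hL')
    rw [hlab j s hL] at h1
    rw [hlab z s' hL'] at h2
    rw [Nat.succ_mul, ← add_assoc, ← add_assoc]
    set A := C.yt (s + N * L + L) j
    set B := C.yt (s' + N * L + L) z
    set o := C.Om (C.Lab j s) L
    set o' := C.Om (C.Lab z s') L
    have ho : ‖o‖ = 1 := C.Om_norm _ _
    have e : (A - φ * B) * o = (A * o - φ * (B * o')) - φ * B * (o - o') := by ring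
    have h3 := norm_sub_le (A * o - φ * (B * o')) (φ * B * (o - o'))
    rw [← e, h1, h2, norm_mul, ho, mul_one, norm_mul, norm_mul, hφ, one_mul] at h3
    have h4 : ‖B‖ * ‖o - o'‖ ≤ ‖o - o'‖ := mul_le_of_le_one_left (norm_nonneg _) (C.yt_le _ _)
    push_cast
    linarith

end Ctx

end Pool.Agent.MP_c71a08_an.H15
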