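import Pool.Agent.MP_c71a08_an.H15.Persist

/-! The loss `1 - |T^q|` is at least `c (1 - r)^(n+1)`. -/

set_option linter.unusedSectionVars false

namespace Pool.Agent.MP_c71a08_an.H15

open Finset Function Matrix Polynomial

variable {V : Type} [Fintype V] [DecidableEq V]

theorem mulVec_norm_le (U : Matrix V V ℂ) (hU : ∀ z : V → ℂ, (∀ l, ‖z l‖ ≤ 1) → ∀ j,
    ‖(U *ᵥ z) j‖ ≤ 1) (z : V → ℂ) : ‖U *ᵥ z‖ ≤ ‖z‖ := by
  rcases (norm_nonneg z).lt_or_eq with h | h
  · have hc : ((‖z‖ : ℝ) : ℂ) ≠ 0 := by exact_mod_cast h.ne'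
    have e : U *ᵥ z = (‖z‖ : ℂ) • (U *ᵥ ((‖z‖ : ℂ)⁻¹ • z)) := by
      rw [mulVec_smul, smul_smul, mul_inv_cancel₀ hc, one_smul]
    rw [e, norm_smul, Complex.norm_real, norm_norm]
    refine mul_le_of_le_one_right h.le ((pi_norm_le_iff_of_nonneg zero_le_one).2 (hU _ fun l => ?_))
    rw [Pi.smul_apply, norm_smul, norm_inv, Complex.norm_real, norm_norm, inv_mul_le_iff₀ h,
      mul_one]
    exact norm_le_pi_norm z l
  · have : z = 0 := norm_eq_zero.1 h.symm
    simp [this]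

theorem dostal (U : Matrix V V ℂ) (hU : ∀ z : V → ℂ, ‖U *ᵥ z‖ ≤ ‖z‖) {ρ : ℝ} (hρ : 0 ≤ ρ)
    (hs : ∀ μ ∈ spectrum ℂ U, ‖μ‖ ≤ ρ) (z : V → ℂ) (hz : ‖z‖ ≤ 1) :
    ‖U ^ Fintype.card V *ᵥ z‖ ≤ (1 + ρ) ^ Fintype.card V - 1 := by
  have hpow : ∀ m : ℕ, ‖U ^ m *ᵥ z‖ ≤ 1 := by
    intro m
    induction m with
    | zero => simpa using hz
    | succ m ih => rw [pow_succ', ← mulVec_mulVec]; exact (hU _).trans ih
  have key : ∀ s : Multiset ℂ, (∀ a ∈ s, ‖a‖ ≤ ρ) →
      ‖U ^ s.card *ᵥ z - aeval U (s.map (X - C ·)).prod *ᵥ z‖ ≤ (1 + ρ) ^ s.card - 1 := by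
    intro s
    induction s using Multiset.induction_on with
    | empty => simp
    | cons a s ih =>
      intro h
      have h1 := ih fun b hb => h b (Multiset.mem_cons_of_mem hb)
      have h2 := h a (Multiset.mem_cons_self _ _)
      rw [Multiset.map_cons, Multiset.prod_cons, Multiset.card_cons, map_mul, map_sub, aeval_X,
        aeval_C, pow_succ', ← mulVec_mulVec, ← mulVec_mulVec, sub_mulVec,
        Algebra.algebraMap_eq_smul_one, smul_mulVec, one_mulVec]
      set P := aeval U (s.map (X - C ·)).prod *ᵥ z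
      have e : U *ᵥ (U ^ s.card *ᵥ z) - (U *ᵥ P - a • P) =
          U *ᵥ (U ^ s.card *ᵥ z - P) + a • P := by rw [mulVec_sub]; abel
      have h3 : ‖P‖ ≤ (1 + ρ) ^ s.card := by
        have := norm_sub_norm_le P (U ^ s.card *ᵥ z)
        rw [norm_sub_rev] at this
        have := hpow s.card
        linarith
      have h4 := norm_add_le (U *ᵥ (U ^ s.card *ᵥ z - P)) (a • P)
      have h5 := hU (U ^ s.card *ᵥ z - P)
      rw [norm_smul] at h4
      have h6 := mul_le_mul h2 h3 (norm_nonneg _) hρ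
      rw [e, pow_succ]
      linarith
  have h := key U.charpoly.roots fun a ha => hs a
    (mem_spectrum_iff_isRoot_charpoly.2 (isRoot_of_mem_roots ha))
  rw [← (IsAlgClosed.splits U.charpoly).eq_prod_roots_of_monic U.charpoly_monic,
    aeval_self_charpoly, IsAlgClosed.card_roots_eq_natDegree, charpoly_natDegree_eq_dim] at h
  simpa using h

theorem pow_mul_le {r : ℝ} (h0 : 0 ≤ r) (h1 : r ≤ 1) (k : ℕ) : r ^ k * (1 + k * (1 - r)) ≤ 1 := by
  induction k with
  | zero => simp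
  | succ k ih =>
    have h2 : 0 ≤ r ^ k := pow_nonneg h0 _
    have h3 : r * (1 + (k + 1) * (1 - r)) ≤ 1 + k * (1 - r) := by
      have : 0 ≤ (k + 1 : ℝ) * (1 - r) * (1 - r) := by
        have : 0 ≤ 1 - r := by linarith
        positivity
      nlinarith
    have := mul_le_mul_of_nonneg_left h3 h2
    rw [pow_succ]; push_cast; nlinarith

/-- decay of powers forced by a spectral gap -/
theorem decay (hn : 2 ≤ Fintype.card V) (T : Matrix V V ℂ) (hT : ∀ j, ∑ l, ‖T j l‖ ≤ 1) {r : ℝ}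
    (h0 : 0 ≤ r) (h1 : r < 1) (hs : ∀ μ ∈ spectrum ℂ T, ‖μ‖ ≤ r) :
    ∃ N : ℕ, N * (1 - r) ≤ Fintype.card V * (3 * Fintype.card V + 1) ∧
      ∀ z : V → ℂ, (∀ l, ‖z l‖ ≤ 1) → ∀ j, ‖(T ^ N *ᵥ z) j‖ ≤ 1 / 2 := by
  set n := Fintype.card V with hn'
  have hn0 : (0 : ℝ) < n := by positivity
  have hη : 0 < 1 - r := by linarith
  set k := ⌈3 * n / (1 - r)⌉₊ with hk
  have hk1 : 3 * n ≤ k * (1 - r) := by
    rw [← div_le_iff₀ hη]; exact Nat.le_ceil _
  have hk2 : k * (1 - r) ≤ 3 * n + 1 := by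
    have := (Nat.ceil_lt_add_one (show 0 ≤ 3 * n / (1 - r) by positivity)).le
    rw [← hk] at this
    have h2 := mul_le_mul_of_nonneg_right this hη.le
    rw [add_mul, div_mul_cancel₀ _ hη.ne'] at h2
    linarith
  have hkpos : 0 < k := Nat.ceil_pos.2 (by positivity)
  have hrk : r ^ k ≤ 1 / (3 * n) := by
    rw [le_div_iff₀ (by positivity)]
    have := pow_mul_le h0 h1.le k
    have h2 : 0 ≤ r ^ k := pow_nonneg h0 _
    nlinarith
  refine ⟨k * n, by push_cast; nlinarith, fun z hz j => ?_⟩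
  have hd := dostal (T ^ k) (mulVec_norm_le _ fun z hz j => pow_mulVec_le T hT z hz k j)
    (ρ := 1 / (3 * n)) (by positivity) (fun μ hμ => by
      rw [spectrum.map_pow_of_pos T hkpos] at hμ
      obtain ⟨ν, hν, rfl⟩ := hμ
      rw [norm_pow]
      exact (pow_le_pow_left₀ (norm_nonneg _) (hs ν hν) k).trans hrk) z
    ((pi_norm_le_iff_of_nonneg zero_le_one).2 hz)
  rw [← pow_mul, ← hn'] at hd
  have h3 : (1 + 1 / (3 * n) : ℝ) ^ n ≤ 3 / 2 := by
    have e1 : (1 + 1 / (3 * n) : ℝ) ≤ Real.exp (1 / (3 * n)) := by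
      have := Real.add_one_le_exp (1 / (3 * n) : ℝ); linarith
    have e2 := pow_le_pow_left₀ (by positivity) e1 n
    rw [← Real.exp_nat_mul, show (n : ℝ) * (1 / (3 * n)) = 1 / 3 by field_simp] at e2
    have e3 := Real.exp_bound_div_one_sub_of_interval (x := 1 / 3) (by norm_num) (by norm_num)
    norm_num at e3 e2 ⊢
    linarith
  have := norm_le_pi_norm (T ^ (k * n) *ᵥ z) j
  linarith

/-- phase of a complex number -/
noncomputable def phs (z : ℂ) : ℂ := if z = 0 then 1 else z / ‖z‖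

theorem phs_norm (z : ℂ) : ‖phs z‖ = 1 := by
  unfold phs; split_ifs with h
  · simp
  · simp [h]

theorem eq_phs (z : ℂ) : z = (‖z‖ : ℂ) * phs z := by
  unfold phs; split_ifs with h
  · simp [h]
  · have : ((‖z‖ : ℝ) : ℂ) ≠ 0 := by simpa using h
    field_simp

theorem upper (hn : 2 ≤ Fintype.card V) : ∃ c : ℝ, 0 < c ∧ ∀ (T : Matrix V V ℂ) (r : ℝ),
    (∀ j, ∑ l, ‖T j l‖ ≤ 1) → 0 ≤ r → r < 1 → (∀ μ ∈ spectrum ℂ T, ‖μ‖ ≤ r) →
      ∀ i, ∑ j, ‖(T ^ qq V) i j‖ ≤ 1 - c * (1 - r) ^ (Fintype.card V + 1) := by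
  classical
  set n := Fintype.card V with hn'
  have hn2 : (2 : ℝ) ≤ n := by exact_mod_cast hn
  have hcc : 0 < cc V := by unfold cc; positivity
  have hcc1 : cc V ≤ 1 := by unfold cc; rw [div_le_one (by linarith)]; linarith
  have hCP : 0 ≤ CP V := CC2_nonneg hcc hcc1 (by have := C0_nonneg (V := V); positivity)
  set c1 : ℝ := 1 / (10 * (CP V + 1) * (n * (3 * n + 1))) with hc1
  have hc1pos : 0 < c1 := by positivity
  have hden : (1 : ℝ) < 10 * (CP V + 1) * (n * (3 * n + 1)) := by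
    have : (1 : ℝ) ≤ n * (3 * n + 1) := by nlinarith
    nlinarith
  have hc1lt : c1 < 1 := by rw [hc1, div_lt_one (by linarith)]; exact hden
  refine ⟨cc V ^ qq V / 2 * c1 ^ (n + 1) / 2, by positivity, fun T r hT h0 h1 hs i => ?_⟩
  by_contra hlt
  push Not at hlt
  have hη : 0 < 1 - r := by linarith
  have : Nonempty V := ⟨i⟩
  have hmax : ∀ j, ∃ l, ∀ l', ‖T j l'‖ ≤ ‖T j l‖ := fun j => Finite.exists_max fun l => ‖T j l‖
  choose h hh using hmax
  have hT1 : ∀ j l, ‖T j l‖ ≤ 1 := fun j l =>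
    (single_le_sum (f := fun l => ‖T j l‖) (fun _ _ => norm_nonneg _) (mem_univ l)).trans (hT j)
  let x0 : V → ℂ := fun j => (starRingEnd ℂ) (phs ((T ^ qq V) i j))
  have hx0 : ∀ j, ‖x0 j‖ ≤ 1 := fun j => by simp [x0, phs_norm]
  have hx : ‖(T ^ qq V *ᵥ x0) i‖ = ∑ j, ‖(T ^ qq V) i j‖ := by
    have : (T ^ qq V *ᵥ x0) i = ((∑ j, ‖(T ^ qq V) i j‖ : ℝ) : ℂ) := by
      rw [mulVec, dotProduct]
      push_cast
      refine sum_congr rfl fun j _ => ?_
      conv_lhs => rw [eq_phs ((T ^ qq V) i j)]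
      rw [mul_assoc, Complex.mul_conj, Complex.normSq_eq_norm_sq, phs_norm]; simp
    rw [this, Complex.norm_real, Real.norm_of_nonneg (sum_nonneg fun _ _ => norm_nonneg _)]
  let C : Ctx V :=
    { h := h
      pt := fun j l => if l = h j then 1 else ‖T j l‖
      om := fun j l => phs (T j l)
      pt_nonneg := fun j l => by split_ifs <;> positivity
      pt_le := fun j l => by split_ifs; exacts [le_rfl, hT1 j l]
      pt_h := fun j => if_pos rfl
      om_norm := fun j l => phs_norm _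
      T := T
      x := fun s => T ^ (qq V - s) *ᵥ x0
      δ := c1 * (1 - r)
      i := i
      hn := hn
      hδ := by positivity
      hδ1 := mul_le_one₀ hc1lt.le hη.le (by linarith)
      T_eq := fun j l => eq_phs _
      row := hT
      T_le := fun j l => by split_ifs; exacts [hT1 j l, le_rfl]
      le_T := fun j l hj => by
        split_ifs with hl
        · have := sum_le_card_nsmul univ (fun l' => ‖T j l'‖) _ fun l' _ => hh j l'
          rw [card_univ, nsmul_eq_mul, ← hn'] at this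
          rw [hl, mul_one, cc, div_le_iff₀ (by positivity), ← hn']
          linarith
        · exact mul_le_of_le_one_left (norm_nonneg _) hcc1
      x_rec := fun s hs j => by
        rw [show qq V - s = (qq V - (s + 1)) + 1 by omega, pow_succ', ← mulVec_mulVec]
        rfl
      x_le := fun s j => pow_mulVec_le T hT x0 hx0 _ j
      eps := by
        rw [Nat.sub_zero, hx, mul_pow, ← hn']
        have h2 := pow_mulVec_le T hT x0 hx0 (qq V) i
        rw [hx] at h2
        nlinarith [sq_nonneg (1 - ∑ j, ‖(T ^ qq V) i j‖)] }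
  obtain ⟨N, hN1, hN2⟩ := decay hn T hT h0 h1 hs
  obtain ⟨j, z, hz, hj⟩ := C.persist (by
    show c1 * (1 - r) < 1
    nlinarith) N
  have h2 : ‖(T ^ N *ᵥ z) j‖ ≤ 1 / 2 := hN2 z hz j
  have h3 : 7 / 10 - N * (CP V * (c1 * (1 - r))) ≤ ‖(T ^ N *ᵥ z) j‖ := hj
  have h4 : N * (CP V * (c1 * (1 - r))) ≤ 1 / 10 := by
    have e1 : N * (CP V * (c1 * (1 - r))) = N * (1 - r) * (CP V * c1) := by ring
    have e2 : N * (1 - r) * (CP V * c1) ≤ n * (3 * n + 1) * ((CP V + 1) * c1) :=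
      mul_le_mul hN1 (mul_le_mul_of_nonneg_right (by linarith) hc1pos.le) (by positivity)
        (by positivity)
    have e3 : n * (3 * n + 1) * ((CP V + 1) * c1) = 1 / 10 := by rw [hc1]; field_simp
    linarith
  linarith

end Pool.Agent.MP_c71a08_an.H15
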