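import Mathlib

/-! Weighted walks, a selected out-edge map `h`, and labels. -/

set_option linter.unusedSectionVars false

namespace Pool.Agent.MP_c71a08_an.H15

open Finset Function

/-- Combinatorial data: a selected out-edge `h`, normalised weights, unimodular phases. -/
structure Dat (V : Type) where
  h : V → V
  pt : V → V → ℝ
  om : V → V → ℂ
  pt_nonneg : ∀ j l, 0 ≤ pt j l
  pt_le : ∀ j l, pt j l ≤ 1
  pt_h : ∀ j, pt j (h j) = 1
  om_norm : ∀ j l, ‖om j l‖ = 1

variable {V : Type} (D : Dat V)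

namespace Dat

def wt (f : ℕ → V) (k : ℕ) : ℝ := ∏ t ∈ range k, D.pt (f t) (f (t + 1))

def ph (f : ℕ → V) (k : ℕ) : ℂ := ∏ t ∈ range k, D.om (f t) (f (t + 1))

def W (j l : V) (k : ℕ) (a : ℝ) (φ : ℂ) : Prop :=
  ∃ f : ℕ → V, f 0 = j ∧ f k = l ∧ a ≤ D.wt f k ∧ φ = D.ph f k

def W0 (j l : V) (k : ℕ) (a : ℝ) : Prop := ∃ φ, D.W j l k a φ

theorem wt_nonneg (f : ℕ → V) (k : ℕ) : 0 ≤ D.wt f k :=
  prod_nonneg fun _ _ => D.pt_nonneg _ _

theorem wt_le_one (f : ℕ → V) (k : ℕ) : D.wt f k ≤ 1 :=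
  prod_le_one (fun _ _ => D.pt_nonneg _ _) fun _ _ => D.pt_le _ _

theorem wt_add (f : ℕ → V) (k m : ℕ) :
    D.wt f (k + m) = D.wt f k * D.wt (fun t => f (k + t)) m := by
  unfold wt; rw [prod_range_add]; rfl

theorem ph_add (f : ℕ → V) (k m : ℕ) :
    D.ph f (k + m) = D.ph f k * D.ph (fun t => f (k + t)) m := by
  unfold ph; rw [prod_range_add]; rfl

theorem wt_succ (f : ℕ → V) (k : ℕ) : D.wt f (k + 1) = D.wt f k * D.pt (f k) (f (k + 1)) := by
  unfold wt; rw [prod_range_succ]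

theorem ph_succ (f : ℕ → V) (k : ℕ) : D.ph f (k + 1) = D.ph f k * D.om (f k) (f (k + 1)) := by
  unfold ph; rw [prod_range_succ]

theorem ph_norm (f : ℕ → V) (k : ℕ) : ‖D.ph f k‖ = 1 := by
  unfold ph; rw [norm_prod]; exact prod_eq_one fun _ _ => D.om_norm _ _

theorem wt_anti (f : ℕ → V) {k m : ℕ} (h : k ≤ m) : D.wt f m ≤ D.wt f k := by
  obtain ⟨d, rfl⟩ := Nat.exists_eq_add_of_le h
  rw [wt_add]
  exact mul_le_of_le_one_right (D.wt_nonneg _ _) (D.wt_le_one _ _)

theorem wt_congr {f g : ℕ → V} {k : ℕ} (h : ∀ t ≤ k, f t = g t) : D.wt f k = D.wt g k := by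
  unfold wt
  refine prod_congr rfl fun t ht => ?_
  have := mem_range.1 ht
  rw [h t (by omega), h (t + 1) (by omega)]

theorem ph_congr {f g : ℕ → V} {k : ℕ} (h : ∀ t ≤ k, f t = g t) : D.ph f k = D.ph g k := by
  unfold ph
  refine prod_congr rfl fun t ht => ?_
  have := mem_range.1 ht
  rw [h t (by omega), h (t + 1) (by omega)]

variable {D}

theorem W.norm {j l : V} {k : ℕ} {a : ℝ} {φ : ℂ} (h : D.W j l k a φ) : ‖φ‖ = 1 := by
  obtain ⟨f, -, -, -, rfl⟩ := h; exact D.ph_norm _ _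

theorem W.le_one {j l : V} {k : ℕ} {a : ℝ} {φ : ℂ} (h : D.W j l k a φ) : a ≤ 1 := by
  obtain ⟨f, -, -, h, -⟩ := h; exact h.trans (D.wt_le_one _ _)

theorem W.mono {j l : V} {k : ℕ} {a a' : ℝ} {φ : ℂ} (h : D.W j l k a φ) (ha : a' ≤ a) :
    D.W j l k a' φ := by
  obtain ⟨f, h0, h1, h2, h3⟩ := h; exact ⟨f, h0, h1, ha.trans h2, h3⟩

theorem W.trans {j l m : V} {k k' : ℕ} {a a' : ℝ} {φ φ' : ℂ} (h : D.W j l k a φ)
    (h' : D.W l m k' a' φ') (ha : 0 ≤ a') : D.W j m (k + k') (a * a') (φ * φ') := by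
  obtain ⟨f, h0, h1, h2, h3⟩ := h
  obtain ⟨g, g0, g1, g2, g3⟩ := h'
  refine ⟨fun t => if t ≤ k then f t else g (t - k), by simp [h0], ?_, ?_, ?_⟩
  · by_cases hk : k' = 0
    · subst hk; simp [h1, ← g0, ← g1]
    · have : ¬ (k + k' ≤ k) := by omega
      simp [this, g1]
  · rw [wt_add]
    have e1 : D.wt (fun t => if t ≤ k then f t else g (t - k)) k = D.wt f k :=
      D.wt_congr fun t ht => by simp [ht]
    have e2 : D.wt (fun t => if k + t ≤ k then f (k + t) else g (k + t - k)) k' = D.wt g k' :=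
      D.wt_congr fun t _ => by
        by_cases ht : t = 0
        · subst ht; simp [h1, g0]
        · have : ¬ (k + t ≤ k) := by omega
          simp [this]
    rw [e1, e2]
    exact mul_le_mul h2 g2 ha (D.wt_nonneg _ _)
  · rw [ph_add]
    have e1 : D.ph (fun t => if t ≤ k then f t else g (t - k)) k = D.ph f k :=
      D.ph_congr fun t ht => by simp [ht]
    have e2 : D.ph (fun t => if k + t ≤ k then f (k + t) else g (k + t - k)) k' = D.ph g k' :=
      D.ph_congr fun t _ => by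
        by_cases ht : t = 0
        · subst ht; simp [h1, g0]
        · have : ¬ (k + t ≤ k) := by omega
          simp [this]
    rw [e1, e2, h3, g3]

theorem W.edge (j l : V) : D.W j l 1 (D.pt j l) (D.om j l) :=
  ⟨fun t => if t = 0 then j else l, by simp, by simp, by simp [wt], by simp [ph]⟩

theorem W.nil (j : V) : D.W j j 0 1 1 :=
  ⟨fun _ => j, rfl, rfl, by simp [wt], by simp [ph]⟩

theorem W0.mono {j l : V} {k : ℕ} {a a' : ℝ} (h : D.W0 j l k a) (ha : a' ≤ a) :
    D.W0 j l k a' := by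
  obtain ⟨φ, h⟩ := h; exact ⟨φ, h.mono ha⟩

theorem W0.le_one {j l : V} {k : ℕ} {a : ℝ} (h : D.W0 j l k a) : a ≤ 1 := by
  obtain ⟨φ, h⟩ := h; exact h.le_one

theorem W0.trans {j l m : V} {k k' : ℕ} {a a' : ℝ} (h : D.W0 j l k a)
    (h' : D.W0 l m k' a') (ha : 0 ≤ a') : D.W0 j m (k + k') (a * a') := by
  obtain ⟨φ, h⟩ := h; obtain ⟨φ', h'⟩ := h'; exact ⟨_, h.trans h' ha⟩

theorem W0.of_fun (f : ℕ → V) (k : ℕ) : D.W0 (f 0) (f k) k (D.wt f k) :=
  ⟨_, f, rfl, rfl, le_rfl, rfl⟩

theorem W0.suffix (f : ℕ → V) (s m : ℕ) : D.W0 (f s) (f (s + m)) m (D.wt f (s + m)) := by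
  refine (W0.of_fun (D := D) (fun t => f (s + t)) m).mono ?_
  rw [wt_add]
  exact mul_le_of_le_one_left (D.wt_nonneg _ _) (D.wt_le_one _ _)

theorem W0.cut (f : ℕ → V) (s d m : ℕ) (hf : f s = f (s + d)) :
    D.W0 (f 0) (f (s + d + m)) (s + m) (D.wt f (s + d + m)) := by
  have h1 := W0.of_fun (D := D) f s
  have h2 := W0.of_fun (D := D) (fun t => f (s + d + t)) m
  simp only [add_zero] at h2
  rw [← hf] at h2
  refine (h1.trans h2 (D.wt_nonneg _ _)).mono ?_
  rw [wt_add]
  exact mul_le_mul_of_nonneg_right (D.wt_anti f (by omega)) (D.wt_nonneg _ _)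

variable (D)

/-- phase along the `h`-orbit -/
def Om (j : V) (k : ℕ) : ℂ := D.ph (fun t => D.h^[t] j) k

theorem Om_norm (j : V) (k : ℕ) : ‖D.Om j k‖ = 1 := D.ph_norm _ _

theorem Om_ne (j : V) (k : ℕ) : D.Om j k ≠ 0 := by
  intro h; have := D.Om_norm j k; rw [h] at this; simp at this

theorem W_h (j : V) (k : ℕ) : D.W j (D.h^[k] j) k 1 (D.Om j k) := by
  refine ⟨fun t => D.h^[t] j, rfl, rfl, ?_, rfl⟩
  unfold wt
  rw [prod_eq_one]
  intro t _
  simp only [iterate_succ_apply']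
  exact D.pt_h _

theorem W0_h (j : V) (k : ℕ) : D.W0 j (D.h^[k] j) k 1 := ⟨_, D.W_h j k⟩

theorem Om_add (j : V) (k m : ℕ) : D.Om j (k + m) = D.Om j k * D.Om (D.h^[k] j) m := by
  unfold Om; rw [ph_add]
  congr 2
  ext t
  rw [add_comm, iterate_add_apply]

theorem Om_one (j : V) : D.Om j 1 = D.om j (D.h j) := by simp [Om, ph]

theorem Om_zero (j : V) : D.Om j 0 = 1 := by simp [Om, ph]

theorem Om_mul {j : V} {L : ℕ} (hL : D.h^[L] j = j) (N : ℕ) :
    D.Om j (N * L) = D.Om j L ^ N := by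
  induction N with
  | zero => simp [Om_zero]
  | succ N ih =>
    rw [Nat.succ_mul, Om_add, ih, pow_succ]
    have : D.h^[N * L] j = j := by
      rw [mul_comm, iterate_mul]; exact iterate_fixed hL N
    rw [this]

theorem Om_shift {j : V} {L : ℕ} (hL : D.h^[L] j = j) (t : ℕ) :
    D.Om (D.h^[t] j) L = D.Om j L := by
  have h1 := D.Om_add j t L
  have h2 := D.Om_add j L t
  rw [hL, add_comm L t, h1] at h2
  have := D.Om_ne j t
  rw [mul_comm] at h2
  exact mul_right_cancel₀ this h2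

variable {D}
variable [Fintype V] [DecidableEq V]

/-- Cycle removal in the state graph `V × Z/g`. -/
theorem W0.shorten {g : ℕ} (hg : 0 < g) {j l : V} {a : ℝ} :
    ∀ k, D.W0 j l k a → ∃ k', k' < Fintype.card V * g ∧ k' ≡ k [MOD g] ∧ D.W0 j l k' a := by
  intro k
  induction k using Nat.strong_induction_on with
  | _ k ih =>
    intro hW
    by_cases hk : k < Fintype.card V * g
    · exact ⟨k, hk, Nat.ModEq.refl _, hW⟩
    obtain ⟨φ, f, h0, h1, h2, -⟩ := hW
    have hcard : (univ ×ˢ range g : Finset (V × ℕ)).card < (range (k + 1)).card := by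
      simp; omega
    obtain ⟨s, hs, t, ht, hst, heq⟩ := exists_ne_map_eq_of_card_lt_of_maps_to hcard
      (f := fun t => (f t, t % g)) (fun t _ => by simp [Nat.mod_lt _ hg])
    wlog hlt : s < t generalizing s t
    · exact this t ht s hs hst.symm heq.symm (by omega)
    simp only [Prod.mk.injEq] at heq
    have ht' := mem_range.1 ht
    obtain ⟨d, rfl⟩ := Nat.exists_eq_add_of_le hlt.le
    obtain ⟨m, hm⟩ := Nat.exists_eq_add_of_le (show s + d ≤ k by omega)
    have hc := W0.cut (D := D) f s d m heq.1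
    rw [← hm, h0, h1] at hc
    obtain ⟨k', hk1, hk2, hk3⟩ := ih (s + m) (by omega) (hc.mono h2)
    refine ⟨k', hk1, hk2.trans ?_, hk3⟩
    rw [hm]
    exact Nat.ModEq.add_right m heq.2

theorem W0.shorten1 {j l : V} {a : ℝ} {k : ℕ} (h : D.W0 j l k a) :
    ∃ k', k' < Fintype.card V ∧ D.W0 j l k' a := by
  obtain ⟨k', h1, -, h2⟩ := W0.shorten (g := 1) one_pos k h
  exact ⟨k', by simpa using h1, h2⟩

variable (D)

/-- periodic points of `h` -/
def E : Set V := periodicPts D.h

open Classical in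
/-- number of periodic points -/
noncomputable def ce : ℕ := (univ.filter fun j => j ∈ D.E).card

open Classical in
/-- number of non-periodic points -/
noncomputable def cf : ℕ := (univ.filter fun j => j ∉ D.E).card

theorem ce_add_cf : D.ce + D.cf = Fintype.card V := by
  classical
  unfold ce cf
  rw [← card_univ]
  convert card_filter_add_card_filter_not (s := (univ : Finset V)) (fun j => j ∈ D.E)

omit [Fintype V] [DecidableEq V] in
theorem E_iter {j : V} (hj : j ∈ D.E) (t : ℕ) : D.h^[t] j ∈ D.E := by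
  obtain ⟨m, hm, h⟩ := hj
  exact ⟨m, hm, h.apply_iterate t⟩

theorem iter_mem_E (j : V) {t : ℕ} (ht : D.cf ≤ t) : D.h^[t] j ∈ D.E := by
  classical
  by_contra hne
  have hall : ∀ s ≤ t, D.h^[s] j ∉ D.E := by
    intro s hs hmem
    obtain ⟨d, rfl⟩ := Nat.exists_eq_add_of_le hs
    apply hne
    rw [add_comm, iterate_add_apply]
    exact D.E_iter hmem d
  have hcard : (univ.filter fun j => j ∉ D.E).card < (range (t + 1)).card := by
    have : (univ.filter fun j => j ∉ D.E).card = D.cf := by unfold cf; congr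
    simp; omega
  obtain ⟨s, hs, u, hu, hsu, heq⟩ := exists_ne_map_eq_of_card_lt_of_maps_to hcard
    (f := fun t => D.h^[t] j) (fun s hs => by
      have := mem_range.1 (mem_coe.1 hs)
      simpa using hall s (by omega))
  wlog hlt : s < u generalizing s u
  · exact this u hu s hs hsu.symm heq.symm (by omega)
  obtain ⟨d, rfl⟩ := Nat.exists_eq_add_of_le hlt.le
  apply hall s (by have := mem_range.1 hu; omega)
  refine ⟨d, by omega, ?_⟩
  show D.h^[d] (D.h^[s] j) = D.h^[s] j
  rw [← iterate_add_apply, add_comm]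
  exact heq.symm

/-- period of a point -/
noncomputable def b (v : V) : ℕ := minimalPeriod D.h v

omit [Fintype V] [DecidableEq V] in
theorem b_pos {v : V} (hv : v ∈ D.E) : 0 < D.b v := minimalPeriod_pos_of_mem_periodicPts hv

omit [Fintype V] [DecidableEq V] in
theorem iter_of_dvd (v : V) {L : ℕ} (hL : D.b v ∣ L) : D.h^[L] v = v :=
  (isPeriodicPt_iff_minimalPeriod_dvd.2 hL :)

omit [Fintype V] [DecidableEq V] in
theorem b_iter {v : V} (hv : v ∈ D.E) (t : ℕ) : D.b (D.h^[t] v) = D.b v :=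
  minimalPeriod_apply_iterate hv t

/-- same cycle -/
def SC (v u : V) : Prop := ∃ t, D.h^[t] v = u

omit [Fintype V] [DecidableEq V] in
theorem SC_symm {v u : V} (hv : v ∈ D.E) (h : D.SC v u) : D.SC u v := by
  obtain ⟨t, rfl⟩ := h
  refine ⟨(D.b v - 1) * t, ?_⟩
  rw [← iterate_add_apply]
  apply D.iter_of_dvd
  have := D.b_pos hv
  refine ⟨t, ?_⟩
  obtain ⟨c, hc⟩ : ∃ c, D.b v = c + 1 := ⟨D.b v - 1, by omega⟩
  rw [hc]; simp; ring

omit [Fintype V] [DecidableEq V] in
theorem SC_trans {v u w : V} (h : D.SC v u) (h' : D.SC u w) : D.SC v w := by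
  obtain ⟨t, rfl⟩ := h; obtain ⟨s, rfl⟩ := h'
  exact ⟨s + t, by rw [iterate_add_apply]⟩

omit [Fintype V] in
theorem orb_card (v : V) : ((range (D.b v)).image fun t => D.h^[t] v).card = D.b v := by
  rw [card_image_of_injOn, card_range]
  intro s hs t ht h
  exact iterate_injOn_Iio_minimalPeriod (by simpa [b] using hs) (by simpa [b] using ht) h

theorem b_le {v : V} (hv : v ∈ D.E) : D.b v ≤ D.ce := by
  classical
  rw [← D.orb_card v]
  unfold ce
  apply card_le_card
  intro u hu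
  obtain ⟨t, -, rfl⟩ := mem_image.1 hu
  simpa using D.E_iter hv t

theorem b_add_le {v u : V} (hv : v ∈ D.E) (hu : u ∈ D.E) (h : ¬ D.SC v u) :
    D.b v + D.b u ≤ D.ce := by
  classical
  rw [← D.orb_card v, ← D.orb_card u, ← card_union_of_disjoint]
  · unfold ce
    apply card_le_card
    intro w hw
    rcases mem_union.1 hw with hw | hw
    · obtain ⟨t, -, rfl⟩ := mem_image.1 hw
      simpa using D.E_iter hv t
    · obtain ⟨t, -, rfl⟩ := mem_image.1 hw
      simpa using D.E_iter hu t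
  · rw [disjoint_left]
    intro w hw hw'
    obtain ⟨t, -, rfl⟩ := mem_image.1 hw
    obtain ⟨s, -, hs⟩ := mem_image.1 hw'
    exact h (D.SC_trans ⟨t, rfl⟩ (D.SC_symm hu ⟨s, hs⟩))

theorem full_cycle {v : V} (hb : D.b v = Fintype.card V) (u : V) : D.SC v u := by
  have h1 : ((range (D.b v)).image fun t => D.h^[t] v) = univ := by
    apply eq_univ_of_card; rw [orb_card, hb]
  have : u ∈ ((range (D.b v)).image fun t => D.h^[t] v) := h1 ▸ mem_univ u
  obtain ⟨t, -, ht⟩ := mem_image.1 this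
  exact ⟨t, ht⟩

end Dat

/-- A common multiple of all products of two periods. -/
def MM (V : Type) [Fintype V] : ℕ := (Fintype.card V).factorial * (Fintype.card V).factorial

theorem MM_pos (V : Type) [Fintype V] : 0 < MM V :=
  Nat.mul_pos (Nat.factorial_pos _) (Nat.factorial_pos _)

theorem le_MM (V : Type) [Fintype V] : Fintype.card V ≤ MM V :=
  (Nat.self_le_factorial _).trans (Nat.le_mul_of_pos_right _ (Nat.factorial_pos _))

/-- Monotone chains of subsets of a finite type stabilise early. -/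
theorem chain_stab {α : Type} (S : Finset α) (A : ℕ → Set α) (hS : ∀ m, A m ⊆ S)
    (hmono : ∀ m, A m ⊆ A (m + 1)) (h0 : (A 0).Nonempty) :
    ∃ m, m < S.card ∧ A (m + 1) ⊆ A m := by
  classical
  by_contra hne
  push Not at hne
  have key : ∀ m, m ≤ S.card → m + 1 ≤ (S.filter fun x => x ∈ A m).card := by
    intro m
    induction m with
    | zero =>
      intro _
      obtain ⟨x, hx⟩ := h0
      exact card_pos.2 ⟨x, mem_filter.2 ⟨hS 0 hx, hx⟩⟩
    | succ m ih =>
      intro hm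
      have h1 := ih (by omega)
      obtain ⟨x, hx1, hx2⟩ := Set.not_subset.1 (hne m (by omega))
      have : (S.filter fun x => x ∈ A m).card < (S.filter fun x => x ∈ A (m + 1)).card := by
        apply card_lt_card
        refine ⟨fun y hy => ?_, fun hsub => hx2 ?_⟩
        · exact mem_filter.2 ⟨(mem_filter.1 hy).1, hmono m (mem_filter.1 hy).2⟩
        · exact (mem_filter.1 (hsub (mem_filter.2 ⟨hS _ hx1, hx1⟩))).2
      omega
  have h1 := key S.card le_rfl
  have h2 : (S.filter fun x => x ∈ A S.card).card ≤ S.card := card_filter_le _ _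
  omega

end Pool.Agent.MP_c71a08_an.H15
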